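import Pool.Agent.W192.HK.Parts0

/-!
# Project HK, weight functions: `K_VK`, `H_FINN`, the incomplete gamma integral
-/

set_option autoImplicit false

open Complex Filter Topology Set MeasureTheory

namespace Pool.Agent.TH936.HK

open Pool.Agent.W192.CY (VW Vk K_VK)
open Pool.Agent.W192.HK

lemma vk_nonneg (m : ℕ) {x : ℝ} (hx : 0 ≤ x) : 0 ≤ Vk m x := by
  unfold Vk
  exact mul_nonneg (Real.exp_pos _).le (Finset.sum_nonneg fun j _ => by positivity)

lemma vk_le (m : ℕ) {x : ℝ} (hx : 0 ≤ x) : Vk m x ≤ 2 ^ m * Real.exp (-(x / 2)) := by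
  unfold Vk
  have h1 : ∑ j ∈ Finset.range m, x ^ j / (j.factorial : ℝ) ≤
      2 ^ m * ∑ j ∈ Finset.range m, (x / 2) ^ j / (j.factorial : ℝ) := by
    rw [Finset.mul_sum]
    refine Finset.sum_le_sum fun j hj => ?_
    have hj' : j ≤ m := (Finset.mem_range.1 hj).le
    have h2 : (2 : ℝ) ^ j ≤ 2 ^ m := pow_le_pow_right₀ (by norm_num) hj'
    have h3 : x ^ j = 2 ^ j * (x / 2) ^ j := by
      rw [← mul_pow]; congr 1; ring
    rw [h3, mul_div_assoc]
    exact mul_le_mul_of_nonneg_right h2 (by positivity)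
  have h4 : ∑ j ∈ Finset.range m, (x / 2) ^ j / (j.factorial : ℝ) ≤ Real.exp (x / 2) :=
    Real.sum_le_exp_of_nonneg (by positivity) m
  calc Real.exp (-x) * ∑ j ∈ Finset.range m, x ^ j / (j.factorial : ℝ)
      ≤ Real.exp (-x) * (2 ^ m * Real.exp (x / 2)) :=
        mul_le_mul_of_nonneg_left (h1.trans (mul_le_mul_of_nonneg_left h4 (by positivity)))
          (Real.exp_pos _).le
    _ = 2 ^ m * (Real.exp (-x) * Real.exp (x / 2)) := by ring
    _ = 2 ^ m * Real.exp (-(x / 2)) := by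
        rw [← Real.exp_add]; congr 2; ring

lemma vk_le_one (m : ℕ) {x : ℝ} (hx : 0 ≤ x) : Vk m x ≤ 1 := by
  unfold Vk
  have h4 : ∑ j ∈ Finset.range m, x ^ j / (j.factorial : ℝ) ≤ Real.exp x :=
    Real.sum_le_exp_of_nonneg hx m
  calc Real.exp (-x) * ∑ j ∈ Finset.range m, x ^ j / (j.factorial : ℝ)
      ≤ Real.exp (-x) * Real.exp x := mul_le_mul_of_nonneg_left h4 (Real.exp_pos _).le
    _ = 1 := by rw [← Real.exp_add]; simp

lemma le_vk {m : ℕ} (hm : 1 ≤ m) {x : ℝ} (hx : 0 ≤ x) : Real.exp (-x) ≤ Vk m x := by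
  unfold Vk
  have h1 : (1 : ℝ) ≤ ∑ j ∈ Finset.range m, x ^ j / (j.factorial : ℝ) := by
    have h2 := Finset.single_le_sum (f := fun j : ℕ => x ^ j / (j.factorial : ℝ))
      (s := Finset.range m) (fun j _ => by positivity) (Finset.mem_range.2 hm)
    simpa using h2
  calc Real.exp (-x) = Real.exp (-x) * 1 := (mul_one _).symm
    _ ≤ _ := mul_le_mul_of_nonneg_left h1 (Real.exp_pos _).le

/-- `K_VK` -/
theorem h_vk : K_VK := by
  intro m hm
  refine ⟨2 ^ m, by positivity, fun x hx => ?_, fun x hx => ?_⟩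
  · rw [abs_of_nonneg (vk_nonneg m hx)]
    exact vk_le m hx
  · rw [abs_of_nonneg (by linarith [vk_le_one m hx])]
    have h1 := le_vk hm hx
    have h2 := Real.add_one_le_exp (-x)
    have h3 : (1 : ℝ) ≤ 2 ^ m := one_le_pow₀ (by norm_num)
    have h4 : x ≤ 2 ^ m * x := by nlinarith
    linarith

lemma vh_of_vw {V : ℝ → ℝ} {C : ℝ} (h : VW V C) : VH V (1 + C) := by
  have hC := h.pos
  refine ⟨by linarith, fun x hx => ?_, fun x hx => ?_⟩
  · have h1 := h.dec x hx
    have h2 := Real.exp_pos (-(x / 2))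
    nlinarith
  · rcases le_total x 1 with h1 | h1
    · have h2 := h.one x hx
      have h3 : x ≤ Real.sqrt x := by
        refine Real.le_sqrt_of_sq_le ?_
        nlinarith
      have h4 := Real.sqrt_nonneg x
      calc |1 - V x| ≤ C * x := h2
        _ ≤ C * Real.sqrt x := mul_le_mul_of_nonneg_left h3 hC.le
        _ ≤ (1 + C) * Real.sqrt x := by nlinarith
    · have h2 := h.dec x hx
      have h3 : Real.exp (-(x / 2)) ≤ 1 := by
        rw [Real.exp_le_one_iff]; linarith
      have h4 : 1 ≤ Real.sqrt x := Real.one_le_sqrt.2 h1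
      have h5 : |1 - V x| ≤ 1 + |V x| := by
        have := abs_sub (1 : ℝ) (V x)
        rwa [abs_one] at this
      have h6 : |V x| ≤ C := h2.trans (by nlinarith)
      nlinarith

/-- `H_FINN` from `N_FINN` -/
theorem h_finn (h : N_FINN) : H_FINN := by
  intro V CV hV
  exact h V (1 + CV) (vh_of_vw hV)

/-! ### the incomplete gamma integral -/

lemma hasDerivAt_vk (m : ℕ) (hm : 1 ≤ m) (x : ℝ) :
    HasDerivAt (fun x => Vk m x) (-(x ^ (m - 1) * Real.exp (-x) / ((m - 1).factorial : ℝ))) x := by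
  induction m, hm using Nat.le_induction with
  | base =>
    have h1 : (fun x : ℝ => Vk 1 x) = fun x => Real.exp (-x) := by
      funext y
      unfold Vk
      simp
    rw [h1]
    have h2 := (hasDerivAt_neg x).exp
    simpa using h2
  | succ k hk ih =>
    have h1 : (fun x : ℝ => Vk (k + 1) x) =
        fun x => Vk k x + Real.exp (-x) * (x ^ k / (k.factorial : ℝ)) := by
      funext y
      unfold Vk
      rw [Finset.sum_range_succ, mul_add]
    rw [h1]
    have h2 : HasDerivAt (fun x : ℝ => Real.exp (-x)) (-Real.exp (-x)) x := by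
      have := (hasDerivAt_neg x).exp
      simpa using this
    have h3 : HasDerivAt (fun x : ℝ => x ^ k / (k.factorial : ℝ))
        ((k : ℝ) * x ^ (k - 1) / (k.factorial : ℝ)) x := (hasDerivAt_pow k x).div_const _
    have h4 := ih.add (h2.mul h3)
    refine h4.congr_deriv ?_
    obtain ⟨j, rfl⟩ : ∃ j, k = j + 1 := ⟨k - 1, by omega⟩
    simp only [Nat.add_sub_cancel]
    rw [Nat.factorial_succ j]
    have hj : ((j.factorial : ℕ) : ℝ) ≠ 0 := by positivity
    have hj1 : ((j : ℝ) + 1) ≠ 0 := by positivity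
    push_cast
    field_simp
    ring

lemma tendsto_vk (m : ℕ) : Tendsto (fun x => Vk m x) atTop (𝓝 0) := by
  have h1 : Tendsto (fun x : ℝ => 2 ^ m * Real.exp (-(x / 2))) atTop (𝓝 0) := by
    rw [show (0 : ℝ) = 2 ^ m * 0 by ring]
    refine Tendsto.const_mul _ ?_
    refine Real.tendsto_exp_atBot.comp ?_
    exact tendsto_neg_atTop_atBot.comp (tendsto_id.atTop_div_const (by norm_num))
  refine tendsto_of_tendsto_of_tendsto_of_le_of_le' tendsto_const_nhds h1 ?_ ?_
  · filter_upwards [eventually_ge_atTop (0 : ℝ)] with x hx using vk_nonneg m hx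
  · filter_upwards [eventually_ge_atTop (0 : ℝ)] with x hx using vk_le m hx

lemma vk_int (m : ℕ) (hm : 1 ≤ m) (a t0 : ℝ) (ha : 0 < a) (ht0 : 0 ≤ t0) :
    IntegrableOn (fun t : ℝ => t ^ (m - 1) * Real.exp (-a * t)) (Ioi t0) ∧
    ∫ t in Ioi t0, t ^ (m - 1) * Real.exp (-a * t) =
      (a ^ m)⁻¹ * (((m - 1).factorial : ℝ) * Vk m (a * t0)) := by
  set G : ℝ → ℝ := fun t => -((a ^ m)⁻¹ * (((m - 1).factorial : ℝ) * Vk m (a * t))) with hG
  have hd : ∀ t : ℝ, HasDerivAt G (t ^ (m - 1) * Real.exp (-a * t)) t := by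
    intro t
    have h1 : HasDerivAt (fun t : ℝ => a * t) a t := by
      simpa using (hasDerivAt_id t).const_mul a
    have h2 := (hasDerivAt_vk m hm (a * t)).comp t h1
    have h3 := ((h2.const_mul ((m - 1).factorial : ℝ)).const_mul ((a ^ m)⁻¹)).neg
    refine h3.congr_deriv ?_
    have hf : (((m - 1).factorial : ℕ) : ℝ) ≠ 0 := by positivity
    have ham : a ^ m = a ^ (m - 1) * a := by
      rw [← pow_succ]; congr 1; omega
    rw [ham, mul_pow, neg_mul]
    field_simp
  have hlim : Tendsto G atTop (𝓝 0) := by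
    have h1 : Tendsto (fun t : ℝ => Vk m (a * t)) atTop (𝓝 0) :=
      (tendsto_vk m).comp (tendsto_id.const_mul_atTop ha)
    have h2 := ((h1.const_mul ((m - 1).factorial : ℝ)).const_mul ((a ^ m)⁻¹)).neg
    simpa using h2
  have hpos : ∀ t ∈ Ioi t0, 0 ≤ t ^ (m - 1) * Real.exp (-a * t) := by
    intro t ht
    have : 0 ≤ t := le_trans ht0 (le_of_lt ht)
    positivity
  have hI : IntegrableOn (fun t : ℝ => t ^ (m - 1) * Real.exp (-a * t)) (Ioi t0) :=
    integrableOn_Ioi_deriv_of_nonneg' (fun t _ => hd t) hpos hlim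
  refine ⟨hI, ?_⟩
  rw [integral_Ioi_of_hasDerivAt_of_tendsto' (fun t _ => hd t) hI hlim]
  simp only [hG]
  ring

end Pool.Agent.TH936.HK
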