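import Pool.Agent.TH936.HK.AFE
import Pool.Agent.W192.HL.Many

/-!
# Assembly of the project HK, infinity type `(2m - 1, 0)`: upper and lower bounds
-/

set_option autoImplicit false

open Complex Filter Topology Set

namespace Pool.Agent.TH936.HK

open Pool.Agent.W192.CY (VW Vk K_VK)
open Pool.Agent.W192.CM (ez nu)
open Pool.Agent.W192.HK Pool.Agent.W192.HL

theorem norm_Wc (hbasic : H_BASIC) (hfp : H_FP) (hgauss : H_GAUSS) {R : Subring ℂ} {ω : ℂ}
    (hR : QR R ω) {m : ℕ} (hm : 1 ≤ m)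
    {q : Ideal R} {ψ : Ideal R → ℂ} (hψ : HC (2 * m - 1) q ψ)
    {s : Finset (Ideal R)} {hh : Ideal R} {μ : R} {T : Finset R} (hS : Sys q s hh μ T) :
    ‖Wc ω m q hh μ T ψ‖ = 1 := by
  have hqt := hψ.ne_top hm
  have hψh : ‖ψ hh‖ ^ 2 = nm hh ^ (2 * m - 1) := hψ.sq hR hfp hm hS.ne hS.cop
  obtain ⟨-, b2, b3, b4, b5, -⟩ := hbasic R ω hR
  have hq : 0 < nm q := lt_of_lt_of_le one_pos (b3 q hψ.ne)
  have hh1 : 0 < nm hh := lt_of_lt_of_le one_pos (b3 hh hS.ne)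
  have g1 := (hgauss R ω hR _ q ψ hψ hqt s hh μ T hS).1
  have hμ : ‖(μ : ℂ)‖ ^ 2 = nm q * nm hh := by
    rw [← b4, hS.prn, b5, Complex.normSq_eq_norm_sq]
  have hsq : ‖Wc ω m q hh μ T ψ‖ ^ 2 = 1 := by
    unfold Wc
    rw [norm_div, norm_mul, norm_mul, norm_pow, norm_pow, Complex.norm_real, Real.norm_eq_abs,
      abs_of_pos hq, div_pow, mul_pow, mul_pow, g1, hψh, ← pow_mul, mul_comm (2 * m - 1) 2,
      pow_mul, hμ, mul_pow]
    have e2 : (nm q ^ m) ^ 2 = nm q * nm q ^ (2 * m - 1) := by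
      rw [← pow_mul, ← pow_succ']
      congr 1
      omega
    rw [e2, mul_assoc, div_self]
    positivity
  have h0 := norm_nonneg (Wc ω m q hh μ T ψ)
  nlinarith

theorem asmK (hdiv : Pool.Agent.W192.CY.S_DIV) (hbasic : H_BASIC) (hcls : H_CLS) (hcnt : H_CNT)
    (hmu : H_MU) (hmob : H_MOB) (hmainp : N_MAINP) (hdualp : N_DUALP) (hfpr : H_FPR)
    (hfp : H_FP) (hafe : H_AFE) (hfinn : H_FINN) (hms : L_MS) (hgauss : H_GAUSS)
    (hprod : H_PROD) (hpw : H_PW)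
    {R : Subring ℂ} {ω : ℂ} (hR : QR R ω) (m : ℕ) (hm : 1 ≤ m) (f : Ideal R) (ψ : Ideal R → ℂ)
    (hψ : HC (2 * m - 1) f ψ) :
    ∃ L : Ideal R → (Ideal R → ℂ) → ℂ → ℂ,
      (∀ (c : Ideal R) (χ : Ideal R → ℂ), IsCoprime f c → HC 0 c χ →
        Differentiable ℂ (L c χ) ∧ ∀ s : ℂ, (m : ℝ) + 1 / 2 < s.re →
          HasSum (fun I : Ideal R => ψ I * χ I * (nm I : ℂ) ^ (-s)) (L c χ s)) ∧
      (∀ (c : Ideal R) (χ : Ideal R → ℂ), HC 0 c χ → ∀ d : ℕ, Od χ d → ∀ a : ℕ,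
        Nat.Coprime a d → HC 0 c (pw χ a)) ∧
      (∀ ε : ℝ, 0 < ε → ∃ C : ℝ, 0 < C ∧ ∀ (c : Ideal R) (χ : Ideal R → ℂ),
        IsCoprime f c → HC 0 c χ → ∀ d : ℕ, Od χ d →
          ∑ a ∈ (Finset.range d).filter (fun a => Nat.Coprime a d), ‖L c (pw χ a) m‖ ^ 2 ≤
            C * d * (nm c) ^ ε * Real.sqrt (nm c / d)) ∧
      (∀ ε : ℝ, 0 < ε → ε < 1 / 12 → ∃ N0 : ℝ, ∀ (c : Ideal R) (χ : Ideal R → ℂ),
        IsCoprime f c → HC 0 c χ → N0 ≤ nm c → ∀ d : ℕ, Od χ d → (nm c) ^ (2 / 3 + ε) ≤ d →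
          2 ≤ d ∧
          d * (nm c) ^ (-(4 * ε)) * Real.sqrt (d / nm c) ≤
            (((Finset.range d).filter (fun a => Nat.Coprime a d ∧
              (nm c) ^ (-ε) ≤ ‖L c (pw χ a) m‖)).card : ℝ)) ∧
      ∀ M : ℕ, 1 ≤ M → ∀ δ : ℝ, 0 < δ → ∃ N0 : ℝ, ∀ (c : Ideal R) (χ : Ideal R → ℂ),
        IsCoprime f c → HC 0 c χ → N0 ≤ nm c → ∀ d : ℕ, Od χ d → (nm c) ^ (2 / 3 + δ) ≤ d →
          ∃ a : ℕ, 1 ≤ a ∧ Nat.Coprime a d ∧ a ≡ 1 [MOD M] ∧
            (nm c) ^ (-δ) ≤ ‖L c (pw χ a) m‖ := by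
  have hgd := gd_of hR hbasic hfp hm hψ
  set g : Ideal R → ℂ := fun I => ψ I / (nm I : ℂ) ^ (m - 1) with hg
  have hft : f ≠ ⊤ := hψ.ne_top hm
  have hbasic' := hbasic
  obtain ⟨hfin, hbot, hge1, hmul, hsp, hdvd, htop, hnat, hunits⟩ := hbasic R ω hR
  obtain ⟨h, hh1, -, hcls⟩ := hcls R ω hR
  obtain ⟨CV, hCV⟩ := h_vk m hm
  have hVH := vh_of_vw hCV
  have hf1 : 1 ≤ nm f := hge1 f hψ.ne
  have hfpos : 0 < nm f := lt_of_lt_of_le one_pos hf1
  set c0 : ℝ := ω.im ^ 2 * nm f / Real.pi ^ 2 with hc0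
  have hc0p : 0 < c0 := by
    have := hR.im
    positivity
  classical
  -- the data for the conductor `f c`
  have hsys : ∀ c : Ideal R, ∃ (s : Finset (Ideal R)) (hh : Ideal R) (μ : R) (T : Finset R),
      c ≠ ⊥ → Sys (f * c) s hh μ T := by
    intro c
    by_cases hc : c ≠ ⊥
    · haveI := hR.ded
      obtain ⟨s, hh, μ, T, -, hS⟩ := hcls (f * c) (mul_ne_zero hψ.ne hc)
      exact ⟨s, hh, μ, T, fun _ => hS⟩
    · exact ⟨∅, ⊥, 0, ∅, fun h' => absurd h' hc⟩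
  choose s hh μ T hS using hsys
  let k : Ideal R → R → ℂ := fun c x => fp (2 * m - 1) ψ x * ez ω ((x : ℂ) / (μ c : ℂ)) *
    (μ c : ℂ) ^ (2 * m - 1) / ((nm (f * c) : ℂ) ^ m * ψ (hh c))
  have hex : ∀ (c : Ideal R) (χ : Ideal R → ℂ), ∃ F : ℂ → ℂ, (IsCoprime f c → HC 0 c χ →
      Differentiable ℂ F ∧
      (∀ z : ℂ, (m : ℝ) + 1 / 2 < z.re →
        HasSum (fun I : Ideal R => ψ I * χ I * (nm I : ℂ) ^ (-z)) (F z)) ∧
      (∀ X Y : ℝ, 0 < X → 0 < Y → X * Y = c0 * nm c →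
        F m = smo (Vk m) g X χ + (∑ x ∈ T c, χ (sp x) * k c x / χ (hh c)) *
          (starRingEnd ℂ) (smo (Vk m) g Y χ)) ∧
      ‖∑ x ∈ T c, χ (sp x) * k c x / χ (hh c)‖ ≤ 1) := by
    intro c χ
    by_cases hc : IsCoprime f c ∧ HC 0 c χ
    · obtain ⟨hfc, hχ⟩ := hc
      have hprim := hprod R ω hR _ f c ψ χ hψ hχ hfc
      have hSc := hS c hχ.ne
      obtain ⟨F, h1, h2, h3⟩ := hafe R ω hR m hm (f * c) _ hprim _ _ _ _ hSc
      have hWeq : ∑ x ∈ T c, χ (sp x) * k c x / χ (hh c) =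
          Wc ω m (f * c) (hh c) (μ c) (T c) (fun I => ψ I * χ I) := by
        unfold Wc gT
        rw [Finset.sum_mul, Finset.sum_div]
        refine Finset.sum_congr rfl fun x _ => ?_
        simp only [k, fp]
        simp only [div_eq_mul_inv, mul_inv]
        ring
      have hW := norm_Wc hbasic' hfp hgauss hR hm hprim hSc
      refine ⟨F, fun _ _ => ⟨h1, h2, fun X Y hX hY hXY => ?_, by rw [hWeq, hW]⟩⟩
      rw [h3 X Y hX hY (by rw [hXY, hc0, hmul]; ring), hWeq]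
      have e1 : ∀ I : Ideal R, ψ I * χ I / (nm I : ℂ) ^ m = χ I * g I / (nm I : ℂ) := by
        intro I
        rcases eq_or_ne I ⊥ with h0 | h0
        · rw [h0, (hψ.zero ⊥).2 (Or.inl rfl), hgd.zero]
          simp
        · have hp : (nm I : ℂ) ≠ 0 := by
            have := lt_of_lt_of_le one_pos (hge1 I h0)
            exact_mod_cast this.ne'
          simp only [hg]
          rw [mul_div_assoc', div_div, ← pow_succ, show m - 1 + 1 = m by omega, mul_comm]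
      congr 1
      · unfold smo
        refine tsum_congr fun I => ?_
        rw [e1]
      · congr 1
        unfold smo
        rw [Complex.conj_tsum]
        refine tsum_congr fun I => ?_
        rw [← e1]
        simp only [map_mul, map_div₀, map_pow, Complex.conj_ofReal]
    · exact ⟨0, fun h1 h2 => absurd ⟨h1, h2⟩ hc⟩
  choose L hL using hex
  -- the coefficients
  have hk : ∀ (c : Ideal R), c ≠ ⊥ → ∀ x : R, ‖k c x‖ ≤ (nm c) ^ (-1 / 2 : ℝ) := by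
    intro c hc x
    have hSc := hS c hc
    have hcpos : 0 < nm c := lt_of_lt_of_le one_pos (hge1 c hc)
    have hqpos : 0 < nm (f * c) := by rw [hmul]; positivity
    have hhpos : 0 < nm (hh c) := lt_of_lt_of_le one_pos (hge1 _ hSc.ne)
    have hfpx : ‖fp (2 * m - 1) ψ x‖ ≤ 1 := by
      obtain ⟨-, -, hz, hn, -⟩ := hfp R ω hR _ f ψ hψ hft
      by_cases hx : IsCoprime (sp x) f
      · exact (hn x hx).le
      · rw [(hz x).2 hx, norm_zero]
        exact zero_le_one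
    have hψh : ‖ψ (hh c)‖ ^ 2 = nm (hh c) ^ (2 * m - 1) :=
      hψ.sq hR hfp hm hSc.ne (IsCoprime.of_mul_right_left hSc.cop)
    have hμ : ‖(μ c : ℂ)‖ ^ 2 = nm (f * c) * nm (hh c) := by
      rw [← hmul, hSc.prn, hsp, Complex.normSq_eq_norm_sq]
    have hsq : ‖k c x‖ ^ 2 ≤ (nm c)⁻¹ := by
      simp only [k, norm_div, norm_mul, ez_norm, mul_one, norm_pow, Complex.norm_real,
        Real.norm_eq_abs, abs_of_pos hqpos]
      rw [div_pow, mul_pow, mul_pow, hψh, ← pow_mul, mul_comm (2 * m - 1) 2, pow_mul, hμ, mul_pow]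
      have e2 : (nm (f * c) ^ m) ^ 2 = nm (f * c) ^ (2 * m - 1) * nm (f * c) := by
        rw [← pow_mul, ← pow_succ]
        congr 1
        omega
      rw [e2]
      have hA : 0 < nm (f * c) ^ (2 * m - 1) := by positivity
      have hB : 0 < nm (hh c) ^ (2 * m - 1) := by positivity
      rw [div_le_iff₀ (by positivity)]
      have h5 : ‖fp (2 * m - 1) ψ x‖ ^ 2 ≤ 1 := pow_le_one₀ (norm_nonneg _) hfpx
      have h6 : 1 ≤ (nm c)⁻¹ * nm (f * c) := by
        rw [hmul, ← mul_assoc, mul_comm (nm c)⁻¹, mul_assoc, inv_mul_cancel₀ hcpos.ne', mul_one]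
        exact hf1
      calc ‖fp (2 * m - 1) ψ x‖ ^ 2 * (nm (f * c) ^ (2 * m - 1) * nm (hh c) ^ (2 * m - 1))
          ≤ 1 * (nm (f * c) ^ (2 * m - 1) * nm (hh c) ^ (2 * m - 1)) := by
            gcongr
        _ ≤ ((nm c)⁻¹ * nm (f * c)) * (nm (f * c) ^ (2 * m - 1) * nm (hh c) ^ (2 * m - 1)) := by
            gcongr
        _ = _ := by ring
    have h7 : (nm c) ^ (-1 / 2 : ℝ) = Real.sqrt ((nm c)⁻¹) := by
      rw [Real.sqrt_eq_rpow, ← Real.rpow_neg_one, ← Real.rpow_mul hcpos.le]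
      norm_num
    rw [h7]
    exact Real.le_sqrt_of_sq_le hsq
  have hpw' : ∀ (c : Ideal R) (χ : Ideal R → ℂ), HC 0 c χ → ∀ d : ℕ, Od χ d → ∀ a : ℕ,
      Nat.Coprime a d → HC 0 c (pw χ a) := fun c χ hχ d hd a ha => hpw R ω hR c χ hχ d hd a ha
  have hEa : ∀ d : ℕ, Ea d 1 = (Finset.range d).filter (fun a => Nat.Coprime a d) := by
    intro d
    unfold Ea
    apply Finset.filter_congr
    intro a _
    simp [Nat.mod_one]
  -- the mean square
  have hmean : ∀ ε : ℝ, 0 < ε → ∃ C : ℝ, 0 < C ∧ ∀ (c : Ideal R) (χ : Ideal R → ℂ),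
      IsCoprime f c → HC 0 c χ → ∀ d : ℕ, Od χ d →
        ∑ a ∈ (Finset.range d).filter (fun a => Nat.Coprime a d), ‖L c (pw χ a) m‖ ^ 2 ≤
          C * d * (nm c) ^ ε * Real.sqrt (nm c / d) := by
    intro ε hε
    obtain ⟨C, hC, hCC⟩ := hms (Vk m) (1 + CV) hVH R ω hR g hgd (Real.sqrt c0)
      (Real.sqrt_pos.2 hc0p) ε hε
    refine ⟨4 * C, by positivity, fun c χ hfc hχ d hd => ?_⟩
    have hcpos : 0 < nm c := lt_of_lt_of_le one_pos (hge1 c hχ.ne)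
    have hX : 0 < Real.sqrt c0 * Real.sqrt (nm c) :=
      mul_pos (Real.sqrt_pos.2 hc0p) (Real.sqrt_pos.2 hcpos)
    have hXX : Real.sqrt c0 * Real.sqrt (nm c) * (Real.sqrt c0 * Real.sqrt (nm c)) =
        c0 * nm c := by
      have e1 := Real.mul_self_sqrt hc0p.le
      have e2 := Real.mul_self_sqrt hcpos.le
      calc _ = (Real.sqrt c0 * Real.sqrt c0) * (Real.sqrt (nm c) * Real.sqrt (nm c)) := by ring
        _ = _ := by rw [e1, e2]
    have h5 := hCC c χ hχ.rc d hd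
    calc ∑ a ∈ (Finset.range d).filter (fun a => Nat.Coprime a d), ‖L c (pw χ a) m‖ ^ 2
        ≤ ∑ a ∈ (Finset.range d).filter (fun a => Nat.Coprime a d),
            4 * ‖smo (Vk m) g (Real.sqrt c0 * Real.sqrt (nm c)) (pw χ a)‖ ^ 2 := by
          refine Finset.sum_le_sum fun a ha => ?_
          have h6 := (hL c (pw χ a) hfc (hpw' c χ hχ d hd a (Finset.mem_filter.1 ha).2)).2.2
          have h7 : ‖L c (pw χ a) m‖ ≤
              2 * ‖smo (Vk m) g (Real.sqrt c0 * Real.sqrt (nm c)) (pw χ a)‖ := by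
            rw [h6.1 _ _ hX hX hXX]
            refine (norm_add_le _ _).trans ?_
            rw [norm_mul, RCLike.norm_conj]
            have h9 := mul_le_mul_of_nonneg_right h6.2
              (norm_nonneg (smo (Vk m) g (Real.sqrt c0 * Real.sqrt (nm c)) (pw χ a)))
            linarith
          have h8 := norm_nonneg (L c (pw χ a) m)
          nlinarith [norm_nonneg (smo (Vk m) g (Real.sqrt c0 * Real.sqrt (nm c)) (pw χ a))]
      _ ≤ ∑ a ∈ Finset.range d,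
            4 * ‖smo (Vk m) g (Real.sqrt c0 * Real.sqrt (nm c)) (pw χ a)‖ ^ 2 :=
          Finset.sum_le_sum_of_subset_of_nonneg (Finset.filter_subset _ _)
            (fun _ _ _ => by positivity)
      _ = 4 * ∑ a ∈ Finset.range d,
            ‖smo (Vk m) g (Real.sqrt c0 * Real.sqrt (nm c)) (pw χ a)‖ ^ 2 := by
          rw [Finset.mul_sum]
      _ ≤ 4 * (C * d * (nm c) ^ ε * Real.sqrt (nm c / d)) := by gcongr
      _ = _ := by ring
  refine ⟨L, fun c χ h1 h2 => ⟨(hL c χ h1 h2).1, (hL c χ h1 h2).2.1⟩, hpw', hmean,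
    fun ε hε hε2 => ?_, fun M hM δ hδ => ?_⟩
  · obtain ⟨C, hC, hCC⟩ := hmean ε hε
    obtain ⟨q0, -, hq0⟩ := coreN hdiv hbasic' hcnt hmu hmob hmainp hdualp hfpr (Vk m) (1 + CV)
      hVH R ω hR g hgd c0 (nm f) hc0p hfpos C hC ε hε hε2
    refine ⟨max q0 2, fun c χ hfc hχ hN d hd hdN => ?_⟩
    have hq0' : q0 ≤ nm c := le_trans (le_max_left _ _) hN
    have h2' : 2 ≤ nm c := le_trans (le_max_right _ _) hN
    have hcpos : 0 < nm c := by linarith
    have hSc := hS c hχ.ne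
    haveI := hR.ded
    have hd2 : 2 ≤ d := by
      by_contra hlt
      have hd1 : d = 1 := by have := hd.pos; omega
      have h8 : (1 : ℝ) < (nm c) ^ (2 / 3 + ε) := Real.one_lt_rpow (by linarith) (by linarith)
      rw [hd1, Nat.cast_one] at hdN
      linarith
    refine ⟨hd2, ?_⟩
    have hsec : ∑ a ∈ Ea d 1, ‖L c (pw χ a) m‖ ^ 2 ≤
        C * d * (nm c) ^ ε * Real.sqrt (nm c / d) := by
      rw [hEa]
      exact hCC c χ hfc hχ d hd
    have hmain := hq0 c χ hχ.rc hq0' d hd hdN (f * c) (hh c) (T c)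
      (mul_ne_zero hψ.ne hχ.ne) (Dvd.intro_left f rfl) (by rw [hmul]) hSc.ne hSc.cop hSc.rp (k c)
      (hk c hχ.ne) (fun a => L c (pw χ a) m) (fun a ha X Y hX hY hXY =>
        (hL c (pw χ a) hfc (hpw' c χ hχ d hd a ha)).2.2.1 X Y hX hY hXY) hsec
    refine hmain.trans (le_of_eq ?_)
    rw [hEa, Finset.filter_filter]
  · obtain ⟨q0, hq0⟩ := hfinn (Vk m) CV hCV R ω hR g hgd c0 (nm f) hc0p hfpos M hM δ hδ
    refine ⟨max q0 2, fun c χ hfc hχ hN d hd hdN => ?_⟩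
    have hq0' : q0 ≤ nm c := le_trans (le_max_left _ _) hN
    have h2' : 2 ≤ nm c := le_trans (le_max_right _ _) hN
    have hcpos : 0 < nm c := by linarith
    have hSc := hS c hχ.ne
    haveI := hR.ded
    obtain ⟨a, ha1, ha2, ha3⟩ := hq0 c χ hχ.rc hq0' d hd hdN (f * c) (hh c) (T c)
      (mul_ne_zero hψ.ne hχ.ne) (Dvd.intro_left f rfl) (by rw [hmul]) hSc.ne hSc.cop hSc.rp (k c)
      (hk c hχ.ne)
      (fun a => L c (pw χ a) m) (fun a ha X Y hX hY hXY =>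
        (hL c (pw χ a) hfc (hpw' c χ hχ d hd a ha)).2.2.1 X Y hX hY hXY)
    refine ⟨a, ?_, ha1, ha2, ha3⟩
    rcases Nat.eq_zero_or_pos a with h0 | h0
    · exfalso
      subst h0
      rw [Nat.coprime_zero_left] at ha1
      subst ha1
      have h8 : (1 : ℝ) < (nm c) ^ (2 / 3 + δ) := Real.one_lt_rpow (by linarith) (by linarith)
      rw [Nat.cast_one] at hdN
      linarith
    · exact h0

end Pool.Agent.TH936.HK
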