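import Pool.Agent.W644.HK.Theta0
import Pool.Agent.W192.HK.Asm

/-!
# Project HK, part THETA: the theta relation for Hecke characters of infinity type `(2m - 1, 0)`
-/

set_option autoImplicit false

open Complex Filter Topology Set Pool.Agent.W192.CM Pool.Agent.W192.HK

namespace Pool.Agent.TH936.HK

open Pool.Agent.W644.HK (comp_cs quo_term)

variable {R : Subring ℂ}

/-- summability -/
theorem summ_exp (h6 : H_CNT) {ω : ℂ} (hR : QR R ω)
    (h1 : ∀ I : Ideal R, I ≠ ⊥ → 1 ≤ nm I) (F : Ideal R → ℂ) (h0 : F ⊥ = 0) (n : ℕ)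
    (hF : ∀ I, I ≠ ⊥ → ‖F I‖ ≤ nm I ^ n) (c : ℝ) (hc : 0 < c) :
    Summable (fun I : Ideal R => F I * (Real.exp (-(c * nm I)) : ℂ)) := by
  have hs := ((h6 R ω hR).2.1 2 (by norm_num)).mul_left (((n + 2).factorial : ℝ) / c ^ (n + 2))
  refine Summable.of_norm_bounded hs fun I => ?_
  by_cases hI : I = ⊥
  · subst hI
    rw [h0, zero_mul, norm_zero]
    exact mul_nonneg (by positivity) (Real.rpow_nonneg (Nat.cast_nonneg _) _)
  · have hn := h1 I hI
    have hn0 : 0 < nm I := by linarith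
    rw [norm_mul, Complex.norm_real, Real.norm_eq_abs, abs_of_pos (Real.exp_pos _)]
    have h2 : ‖F I‖ * Real.exp (-(c * nm I)) ≤ nm I ^ n * Real.exp (-(c * nm I)) :=
      mul_le_mul_of_nonneg_right (hF I hI) (Real.exp_pos _).le
    refine h2.trans ?_
    rw [Real.exp_neg, Real.rpow_neg hn0.le, Real.rpow_two]
    have h3 := Real.pow_div_factorial_le_exp (c * nm I) (by positivity) (n + 2)
    have h5 : (0 : ℝ) < ((n + 2).factorial : ℝ) := by positivity
    rw [← div_eq_mul_inv, div_le_iff₀ (Real.exp_pos _)]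
    calc nm I ^ n = ((n + 2).factorial : ℝ) / c ^ (n + 2) * (nm I ^ 2)⁻¹ *
        ((c * nm I) ^ (n + 2) / ((n + 2).factorial : ℝ)) := by
          rw [mul_pow, pow_add (nm I) n 2]
          field_simp
      _ ≤ _ := by
        refine mul_le_mul_of_nonneg_left h3 (by positivity)

open Classical in
theorem per_b [IsDedekindDomain R] (h5 : H_POIS) {ω : ℂ} (hR : QR R ω) (n : ℕ)
    {q b g : Ideal R} {μ : R}
    {T : Finset R} {θ : R → ℂ} {G : ℂ}
    (hn : ∀ I J : Ideal R, nm (I * J) = nm I * nm J)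
    (hsp : ∀ α : R, nm (sp α) = Complex.normSq (α : ℂ))
    (hq0 : 0 < nm q) (hb0 : 0 < nm b) (hg0 : 0 < nm g) (hqne : q ≠ ⊥) (hbne : b ≠ ⊥)
    (hgne : g ≠ ⊥) (hcop : IsCoprime q b) (hprn : q * b * g = sp μ) (hT : Rp q b T)
    (hper : ∀ α β : R, α - β ∈ q → θ α = θ β)
    (hgauss : ∀ γ ∈ g, ∑ r ∈ T, θ r * ez ω ((r : ℂ) * (γ : ℂ) / (μ : ℂ)) =
      (starRingEnd ℂ) (θ γ) * G)
    (t : ℝ) (ht : 0 < t) (c1 c2 : ℝ)
    (hc1 : c1 = Real.pi / (ω.im * Real.sqrt (nm q) * t) / nm b)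
    (hc2 : c2 = Real.pi * t / (ω.im * Real.sqrt (nm q)) / nm g)
    (hsum : Summable (fun β : R => if β ∈ b then θ β * (β : ℂ) ^ n *
      (Real.exp (-(c1 * Complex.normSq (β : ℂ))) : ℂ) else 0)) :
    ∑' β : R, (if β ∈ b then θ β * (β : ℂ) ^ n *
        (Real.exp (-(c1 * Complex.normSq (β : ℂ))) : ℂ) else 0) =
      ((t : ℂ) ^ (n + 1) * (μ : ℂ) ^ n / ((Real.sqrt (nm q) : ℂ) ^ (n + 1) * (nm g : ℂ) ^ n)) *
        G * ∑' γ : R, (if γ ∈ g then (starRingEnd ℂ) (θ γ * (γ : ℂ) ^ n) *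
        (Real.exp (-(c2 * Complex.normSq (γ : ℂ))) : ℂ) else 0) := by
  have hv := hR.im
  have hsq : 0 < Real.sqrt (nm q) := Real.sqrt_pos.2 hq0
  have hsq2 : Real.sqrt (nm q) * Real.sqrt (nm q) = nm q := Real.mul_self_sqrt hq0.le
  have hμ : Complex.normSq (μ : ℂ) = nm q * nm b * nm g := by rw [← hsp, ← hprn, hn, hn]
  have hμ0 : (μ : ℂ) ≠ 0 := by
    intro h
    rw [h, Complex.normSq_zero] at hμ
    have : 0 < nm q * nm b * nm g := by positivity
    linarith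
  set E1 : ℂ → ℂ := fun z => z ^ n * (Real.exp (-(c1 * Complex.normSq z)) : ℂ) with hE1
  set E2 : ℂ → ℂ := fun z => ((starRingEnd ℂ) z) ^ n *
    (Real.exp (-(c2 * Complex.normSq z)) : ℂ) with hE2
  set tP : ℝ := Real.sqrt (nm q) * nm g / t with htP
  have htP0 : 0 < tP := by positivity
  have hinf : q ⊓ b = q * b := (Ideal.mul_eq_inf_of_isCoprime hcop).symm
  have hqb : q * b ≠ ⊥ := by
    rw [← Ideal.zero_eq_bot] at *
    exact mul_ne_zero hqne hbne
  set κ : ℂ := (t : ℂ) ^ (n + 1) * (μ : ℂ) ^ n /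
    ((Real.sqrt (nm q) : ℂ) ^ (n + 1) * (nm g : ℂ) ^ n) with hκ
  -- Poisson for each r
  have hP : ∀ r : R, Summable (fun γ : R => if γ ∈ g then
        ez ω ((r : ℂ) * (γ : ℂ) / (μ : ℂ)) * E2 (γ : ℂ) else 0) ∧
      ∑' α : R, (if α ∈ q * b then E1 ((r : ℂ) + (α : ℂ)) else 0) =
        κ * ∑' γ : R, (if γ ∈ g then
          ez ω ((r : ℂ) * (γ : ℂ) / (μ : ℂ)) * E2 (γ : ℂ) else 0) := by
    intro r
    obtain ⟨s1, _, e⟩ := h5 R ω hR n (q * b) g μ r tP hqb hgne hprn htP0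
    have ha : ∀ γ : R, (if γ ∈ g then ((starRingEnd ℂ) (γ : ℂ)) ^ n *
        ez ω ((r : ℂ) * (γ : ℂ) / (μ : ℂ)) *
        (Real.exp (-(Real.pi * Complex.normSq (γ : ℂ) / (ω.im * tP))) : ℂ) else 0) =
        (if γ ∈ g then ez ω ((r : ℂ) * (γ : ℂ) / (μ : ℂ)) * E2 (γ : ℂ) else 0) := by
      intro γ
      split_ifs
      · have h9 : Real.pi * Complex.normSq (γ : ℂ) / (ω.im * tP) =
            c2 * Complex.normSq (γ : ℂ) := by
          rw [hc2, htP]
          field_simp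
        rw [h9, hE2]
        ring
      · rfl
    have hb : ∀ α : R, (if α ∈ q * b then (((r : ℂ) + (α : ℂ)) / (μ : ℂ)) ^ n *
      (Real.exp (-(Real.pi * tP * Complex.normSq ((r : ℂ) + (α : ℂ)) /
        (ω.im * Complex.normSq (μ : ℂ)))) : ℂ) else 0) =
        ((μ : ℂ) ^ n)⁻¹ * (if α ∈ q * b then E1 ((r : ℂ) + (α : ℂ)) else 0) := by
      intro α
      split_ifs
      · have h9 : Real.pi * tP * Complex.normSq ((r : ℂ) + (α : ℂ)) /
            (ω.im * Complex.normSq (μ : ℂ)) = c1 * Complex.normSq ((r : ℂ) + (α : ℂ)) := by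
          rw [hc1, htP, hμ, ← hsq2]
          have : Real.sqrt (Real.sqrt (nm q) * Real.sqrt (nm q)) = Real.sqrt (nm q) := by rw [hsq2]
          rw [this]
          field_simp
        rw [h9, hE1, div_pow]
        ring
      · rw [mul_zero]
    simp only [ha] at s1 e
    simp only [hb, tsum_mul_left] at e
    refine ⟨s1, ?_⟩
    rw [e, ← mul_assoc, ← mul_assoc]
    have h1 : κ * ((tP : ℂ) ^ (n + 1) / (nm g : ℂ)) * ((μ : ℂ) ^ n)⁻¹ = 1 := by
      rw [hκ, htP]
      have h2 : (t : ℂ) ≠ 0 := by exact_mod_cast ht.ne'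
      have h3 : (Real.sqrt (nm q) : ℂ) ≠ 0 := by exact_mod_cast hsq.ne'
      have h4 : (nm g : ℂ) ≠ 0 := by exact_mod_cast hg0.ne'
      push_cast
      rw [div_pow, mul_pow, pow_succ (nm g : ℂ) n]
      field_simp
    rw [h1, one_mul]
  -- partition of the left side
  have hA : ∑' β : R, (if β ∈ b then θ β * E1 (β : ℂ) else 0) =
      ∑ r ∈ T, θ r * ∑' α : R, (if α ∈ q * b then E1 ((r : ℂ) + (α : ℂ)) else 0) := by
    have h1 : ∀ β : R, (if β ∈ b then θ β * E1 (β : ℂ) else 0) =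
        ∑ r ∈ T, (if β - r ∈ q then (if β ∈ b then θ β * E1 (β : ℂ) else 0) else 0) := by
      intro β
      obtain ⟨r, ⟨hr, hrq⟩, hu⟩ := hT.uni β
      rw [Finset.sum_eq_single r]
      · rw [if_pos hrq]
      · intro r' hr' hne
        rw [if_neg]
        intro h
        exact hne (hu r' ⟨hr', h⟩)
      · intro h
        exact absurd hr h
    rw [tsum_congr h1, Summable.tsum_finsetSum]
    · refine Finset.sum_congr rfl fun r hr => ?_
      rw [← tsum_mul_left, ← (Equiv.addLeft r).tsum_eq]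
      refine tsum_congr fun α => ?_
      rw [Equiv.coe_addLeft, add_sub_cancel_left, ← hinf, Ideal.mem_inf,
        Ideal.add_mem_iff_right b (hT.mem r hr)]
      by_cases h2 : α ∈ q
      · by_cases h3 : α ∈ b
        · rw [if_pos h2, if_pos h3, if_pos ⟨h2, h3⟩, hper (r + α) r (by rwa [add_sub_cancel_left])]
          push_cast
          rfl
        · rw [if_pos h2, if_neg h3, if_neg (fun h => h3 h.2), mul_zero]
      · rw [if_neg h2, if_neg (fun h => h2 h.1), mul_zero]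
    · intro r _
      have hsum' : Summable (fun β : R => if β ∈ b then θ β * E1 (β : ℂ) else 0) := by
        refine hsum.congr fun β => ?_
        split_ifs
        · rw [hE1, mul_assoc]
        · rfl
      have := hsum'.indicator {β : R | β - r ∈ q}
      refine this.congr fun β => ?_
      by_cases h2 : β - r ∈ q
      · rw [if_pos h2, Set.indicator_of_mem (by exact h2)]
      · rw [if_neg h2, Set.indicator_of_notMem (by exact h2)]
  have hB : ∑' γ : R, (if γ ∈ g then (starRingEnd ℂ) (θ γ) * E2 (γ : ℂ) else 0) * G =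
      ∑ r ∈ T, θ r * ∑' γ : R, (if γ ∈ g then
          ez ω ((r : ℂ) * (γ : ℂ) / (μ : ℂ)) * E2 (γ : ℂ) else 0) := by
    simp only [← tsum_mul_left]
    rw [← Summable.tsum_finsetSum fun r _ => ((hP r).1.mul_left _)]
    refine tsum_congr fun γ => ?_
    by_cases h2 : γ ∈ g
    · simp only [if_pos h2]
      rw [mul_right_comm, ← hgauss γ h2, Finset.sum_mul]
      refine Finset.sum_congr rfl fun r _ => ?_
      ring
    · simp only [if_neg h2, mul_zero, zero_mul, Finset.sum_const_zero]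
  have hL : ∑' β : R, (if β ∈ b then θ β * (β : ℂ) ^ n *
        (Real.exp (-(c1 * Complex.normSq (β : ℂ))) : ℂ) else 0) =
      ∑' β : R, (if β ∈ b then θ β * E1 (β : ℂ) else 0) := by
    refine tsum_congr fun β => ?_
    split_ifs
    · rw [hE1, mul_assoc]
    · rfl
  have hRt : ∑' γ : R, (if γ ∈ g then (starRingEnd ℂ) (θ γ * (γ : ℂ) ^ n) *
        (Real.exp (-(c2 * Complex.normSq (γ : ℂ))) : ℂ) else 0) =
      ∑' γ : R, (if γ ∈ g then (starRingEnd ℂ) (θ γ) * E2 (γ : ℂ) else 0) := by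
    refine tsum_congr fun γ => ?_
    split_ifs
    · rw [hE2, map_mul, map_pow, mul_assoc]
    · rfl
  rw [hL, hRt, hA, mul_assoc, mul_comm G, ← tsum_mul_right, hB, Finset.mul_sum]
  refine Finset.sum_congr rfl fun r _ => ?_
  rw [(hP r).2]
  ring

set_option maxHeartbeats 1000000 in
open Classical in
theorem h_theta (h1 : H_BASIC) (h2 : H_FP) (h3 : H_DEC) (h4 : H_GAUSS) (h5 : H_POIS)
    (h6 : H_CNT) : H_THETA := by
  intro R ω hR m hm q ψ hψ s hh μ T hS t ht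
  have := hR.ded
  have hq := hψ.ne_top hm
  obtain ⟨-, -, b3, b4, b5, -, -, -, -⟩ := h1 R ω hR
  obtain ⟨f1, -, -, -, f5⟩ := h2 R ω hR (2 * m - 1) q ψ hψ hq
  set n : ℕ := 2 * m - 1 with hn
  have hn1 : n + 1 = 2 * m := by omega
  have hn0 : n ≠ 0 := by omega
  have hv := hR.im
  have hpos : ∀ I : Ideal R, I ≠ ⊥ → 0 < nm I := fun I hI => by linarith [b3 I hI]
  have hQ := hpos q hψ.ne
  have hsq : 0 < Real.sqrt (nm q) := Real.sqrt_pos.2 hQ
  -- values of `ψ`
  have hψ0 : ψ ⊥ = 0 := (hψ.zero ⊥).2 (Or.inl rfl)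
  have hfp : ∀ α : R, ψ (sp α) = fp n ψ α * (α : ℂ) ^ n := by
    intro α
    unfold fp
    by_cases h : α = 0
    · subst h
      have : sp (0 : R) = ⊥ := by
        rw [Ideal.span_singleton_eq_bot]
      rw [this, hψ0, zero_div, zero_mul]
    · have h' : (α : ℂ) ≠ 0 := by
        intro h''
        apply h
        exact Subtype.ext h''
      rw [div_mul_cancel₀ _ (pow_ne_zero n h')]
  have hψ1 : ∀ I : Ideal R, ψ I ≠ 0 → ‖ψ I‖ ^ 2 = nm I ^ n := by
    intro I hI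
    have h := hI
    rw [Ne, hψ.zero, not_or, not_not] at h
    exact f1 I h.1 h.2
  have hψle : ∀ I : Ideal R, I ≠ ⊥ → ‖ψ I‖ ≤ nm I ^ n := by
    intro I hI0
    have h9 : 1 ≤ nm I ^ n := one_le_pow₀ (b3 I hI0)
    by_cases h : ψ I = 0
    · rw [h, norm_zero]; linarith
    · have h8 := hψ1 I h
      have h7 : ‖ψ I‖ ^ 2 ≤ (nm I ^ n) ^ 2 := by
        rw [h8, sq]
        nlinarith
      exact le_of_sq_le_sq h7 (by linarith)
  have hconj : ∀ I : Ideal R, ψ I ≠ 0 → ((starRingEnd ℂ) (ψ I))⁻¹ = ψ I / (nm I : ℂ) ^ n := by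
    intro I hI
    have h : ψ I * (starRingEnd ℂ) (ψ I) = (nm I : ℂ) ^ n := by
      rw [Complex.mul_conj, Complex.normSq_eq_norm_sq, hψ1 I hI]
      norm_cast
    have h9 : (starRingEnd ℂ) (ψ I) ≠ 0 := (map_ne_zero _).2 hI
    rw [← h]
    field_simp
  -- the complementary representatives
  have hex : ∀ b : Ideal R, ∃ g : Ideal R, b ∈ s → hh = b * g := by
    intro b
    by_cases hb : b ∈ s
    · obtain ⟨g, hg⟩ := hS.dvd b hb
      exact ⟨g, fun _ => hg⟩
    · exact ⟨⊤, fun h => absurd h hb⟩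
  choose g hg using hex
  have hCs' : Cs (s.image g) := comp_cs hS.cs hS.ne g hg
  have hbne : ∀ b ∈ s, b ≠ ⊥ := hS.cs.ne
  have hgne : ∀ b ∈ s, g b ≠ ⊥ := fun b hb => hCs'.ne (g b) (Finset.mem_image_of_mem g hb)
  have hψb : ∀ b ∈ s, ψ b ≠ 0 := by
    intro b hb h
    rcases (hψ.zero b).1 h with h | h
    · exact hbne b hb h
    · exact h (hS.cp b hb)
  have hψg : ∀ b ∈ s, ψ (g b) ≠ 0 := by
    intro b hb h
    rcases (hψ.zero (g b)).1 h with h | h
    · exact hgne b hb h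
    · apply h
      have := hS.cop
      rw [hg b hb] at this
      exact this.of_mul_left_right
  have hinj : Set.InjOn g (s : Set (Ideal R)) := by
    intro b hb b' hb' he
    have e1 := hg b hb
    rw [hg b' hb', ← he] at e1
    have h0 : g b ≠ 0 := by rw [Ideal.zero_eq_bot]; exact hgne b hb
    exact (mul_right_cancel₀ h0 e1).symm
  -- exponents
  set k1 : ℝ := Real.pi / (ω.im * Real.sqrt (nm q) * t) with hk1
  set k2 : ℝ := Real.pi * t / (ω.im * Real.sqrt (nm q)) with hk2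
  have hk1p : 0 < k1 := by positivity
  have hk2p : 0 < k2 := by positivity
  have hL : ∀ I : Ideal R, ψ I *
      (Real.exp (-(Real.pi * nm I / (ω.im * Real.sqrt (nm q))) / t) : ℂ) =
      ψ I * (Real.exp (-(k1 * nm I)) : ℂ) := by
    intro I
    congr 3
    rw [hk1]
    field_simp
  have hRr : ∀ I : Ideal R, (starRingEnd ℂ) (ψ I) *
      (Real.exp (-(Real.pi * nm I / (ω.im * Real.sqrt (nm q))) * t) : ℂ) =
      (starRingEnd ℂ) (ψ I) * (Real.exp (-(k2 * nm I)) : ℂ) := by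
    intro I
    congr 3
    rw [hk2]
    field_simp
  rw [tsum_congr hL, tsum_congr hRr]
  have hS1 : Summable (fun I : Ideal R => ψ I * (Real.exp (-(k1 * nm I)) : ℂ)) :=
    summ_exp h6 hR b3 ψ hψ0 n hψle k1 hk1p
  have hS2 : Summable (fun I : Ideal R => (starRingEnd ℂ) (ψ I) *
      (Real.exp (-(k2 * nm I)) : ℂ)) :=
    summ_exp h6 hR b3 (fun I => (starRingEnd ℂ) (ψ I)) (by simp only [hψ0, map_zero]) n
      (fun I hI => by rw [RCLike.norm_conj]; exact hψle I hI) k2 hk2p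
  obtain ⟨hq1, hD1⟩ := h3 R ω hR s hS.cs
  obtain ⟨hq2, hD2⟩ := h3 R ω hR (s.image g) hCs'
  obtain ⟨hi1, ht1⟩ := hD1 (fun I : Ideal R => ψ I * (Real.exp (-(k1 * nm I)) : ℂ))
    (by simp only [hψ0, zero_mul])
  obtain ⟨-, ht2⟩ := hD2 (fun I : Ideal R => (starRingEnd ℂ) (ψ I) *
    (Real.exp (-(k2 * nm I)) : ℂ)) (by simp only [hψ0, map_zero, zero_mul])
  rw [ht1 hS1, ht2 hS2, Finset.sum_image hinj, Finset.mul_sum]
  refine Finset.sum_congr rfl fun b hb => ?_
  have hbp := hpos b (hbne b hb)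
  have hgp := hpos (g b) (hgne b hb)
  -- the left terms
  have hl : ∀ α : R, (if α ∈ b then ψ (quo b α) * (Real.exp (-(k1 * nm (quo b α))) : ℂ) else 0) =
      (ψ b)⁻¹ * (if α ∈ b then fp n ψ α * (α : ℂ) ^ n *
        (Real.exp (-(k1 / nm b * Complex.normSq (α : ℂ))) : ℂ) else 0) := by
    intro α
    by_cases h : α ∈ b
    · rw [if_pos h, if_pos h, ← hfp]
      exact quo_term hψ.mul b4 b5 (hψb b hb) hbp (hq1 b (hbne b hb) α h) k1
    · rw [if_neg h, if_neg h, mul_zero]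
  have hr : ∀ γ : R, (if γ ∈ g b then (starRingEnd ℂ) (ψ (quo (g b) γ)) *
      (Real.exp (-(k2 * nm (quo (g b) γ))) : ℂ) else 0) =
      ψ (g b) / (nm (g b) : ℂ) ^ n * (if γ ∈ g b then
        (starRingEnd ℂ) (fp n ψ γ * (γ : ℂ) ^ n) *
        (Real.exp (-(k2 / nm (g b) * Complex.normSq (γ : ℂ))) : ℂ) else 0) := by
    intro γ
    by_cases h : γ ∈ g b
    · rw [if_pos h, if_pos h, ← hfp]
      have := quo_term (ψ := fun I => (starRingEnd ℂ) (ψ I)) (fun I J => by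
        simp only [hψ.mul, map_mul]) b4 b5 (b := g b)
        (by simpa using hψg b hb) hgp (hq2 (g b) (hgne b hb) γ h) k2
      rw [this, hconj _ (hψg b hb)]
    · rw [if_neg h, if_neg h, mul_zero]
  have hsum : Summable (fun β : R => if β ∈ b then fp n ψ β * (β : ℂ) ^ n *
      (Real.exp (-(k1 / nm b * Complex.normSq (β : ℂ))) : ℂ) else 0) := by
    have h := (hi1.1 hS1 b hb).mul_left (ψ b)
    refine h.congr fun β => ?_
    rw [hl β, ← mul_assoc, mul_inv_cancel₀ (hψb b hb), one_mul]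
  have hTb : Rp q b T := by
    refine ⟨fun x hx => ?_, hS.rp.uni⟩
    have h := hS.rp.mem x hx
    rw [hg b hb] at h
    have hle : b * g b ≤ b := Ideal.mul_le_left
    exact hle h
  have hga : ∀ γ ∈ g b, ∑ r ∈ T, fp n ψ r * ez ω ((r : ℂ) * (γ : ℂ) / (μ : ℂ)) =
      (starRingEnd ℂ) (fp n ψ γ) * gT ω n ψ μ T := by
    intro γ hγ
    exact (h4 R ω hR n q ψ hψ hq s hh μ T hS).2 b (g b) (hg b hb).symm T hTb γ hγ
  have hprn : q * b * g b = sp μ := by rw [mul_assoc, ← hg b hb, hS.prn]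
  have key := per_b h5 hR n (θ := fp n ψ) b4 b5 hQ hbp hgp hψ.ne (hbne b hb) (hgne b hb)
    (hS.cp b hb).symm hprn hTb f5 hga t ht (k1 / nm b) (k2 / nm (g b)) rfl rfl hsum
  simp only [hl, hr]
  rw [tsum_mul_left, tsum_mul_left, key]
  have hhh : ψ hh = ψ b * ψ (g b) := by rw [hg b hb, hψ.mul]
  unfold Pool.Agent.W192.HK.Wc
  rw [hhh, ← hn]
  have e1 := hψb b hb
  have e2 := hψg b hb
  have e3 : (nm q : ℂ) ≠ 0 := by exact_mod_cast hQ.ne'
  have e4 : (nm (g b) : ℂ) ≠ 0 := by exact_mod_cast hgp.ne'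
  have e5 : (Real.sqrt (nm q) : ℂ) ^ (n + 1) = (nm q : ℂ) ^ m := by
    rw [hn1, pow_mul]
    congr 1
    have := Real.sq_sqrt hQ.le
    exact_mod_cast this
  rw [e5, hn1]
  field_simp

end Pool.Agent.TH936.HK
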