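import Pool.Agent.TH936.HK.Mel
import Pool.Agent.TH936.HK.Theta
import Pool.Agent.W283.HK.AFE0

/-!
# Project HK, part AFE: the approximate functional equation, infinity type `(2m - 1, 0)`
-/

set_option autoImplicit false

open Complex Filter Topology Set MeasureTheory

namespace Pool.Agent.TH936.HK

open Pool.Agent.W192.CY (VW Vk K_VK)
open Pool.Agent.W192.HK
open Pool.Agent.W283.HK.AFE0 (fib fib_fin exp_bd)

section general

variable {ι : Type} {N : ι → ℕ}

theorem exp_bdr (ρ : ℝ) {c : ℝ} (hc : 0 < c) : ∃ C : ℝ, 0 < C ∧ ∀ t : ℝ, 1 ≤ t →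
    t ^ ρ * Real.exp (-(c * t)) ≤ C * t ^ (-(2 : ℝ)) := by
  obtain ⟨C, hC, h⟩ := exp_bd ⌈|ρ|⌉₊ hc
  refine ⟨C, hC, fun t ht => le_trans ?_ (h t ht)⟩
  refine mul_le_mul_of_nonneg_right ?_ (Real.exp_pos _).le
  refine Real.rpow_le_rpow_of_exponent_le ht ?_
  have h1 := Nat.le_ceil |ρ|
  have h2 := le_abs_self ρ
  linarith

theorem summ_r (hS : ∀ σ : ℝ, 1 < σ → Summable (fun I : ι => (N I : ℝ) ^ (-σ)))
    (ρ : ℝ) (f : ι → ℂ) (hf0 : ∀ I : ι, N I = 0 → f I = 0)
    (hf : ∀ I : ι, 1 ≤ N I → ‖f I‖ ≤ (N I : ℝ) ^ ρ) (g : ℕ → ℂ)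
    {A c : ℝ} (hc : 0 < c) (hg : ∀ n : ℕ, 1 ≤ n → ‖g n‖ ≤ A * Real.exp (-(c * n))) :
    Summable (fun I : ι => f I * g (N I)) := by
  obtain ⟨C, hC, hb⟩ := exp_bdr ρ hc
  have h1 : Summable (fun I : ι => |A| * C * (N I : ℝ) ^ (-(2 : ℝ))) :=
    (hS 2 (by norm_num)).mul_left _
  refine Summable.of_norm_bounded h1 (fun I => ?_)
  rcases Nat.eq_zero_or_pos (N I) with h0 | h0
  · rw [hf0 I h0, zero_mul, norm_zero]
    positivity
  · have hN1 : (1 : ℝ) ≤ N I := by exact_mod_cast h0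
    have h2 := hg (N I) h0
    rw [norm_mul]
    calc ‖f I‖ * ‖g (N I)‖
        ≤ (N I : ℝ) ^ ρ * (|A| * Real.exp (-(c * N I))) := by
          refine mul_le_mul (hf I h0) (h2.trans ?_) (norm_nonneg _) (by positivity)
          exact mul_le_mul_of_nonneg_right (le_abs_self A) (Real.exp_pos _).le
      _ = |A| * ((N I : ℝ) ^ ρ * Real.exp (-(c * N I))) := by ring
      _ ≤ |A| * (C * (N I : ℝ) ^ (-(2 : ℝ))) :=
          mul_le_mul_of_nonneg_left (hb _ hN1) (abs_nonneg _)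
      _ = |A| * C * (N I : ℝ) ^ (-(2 : ℝ)) := by ring

end general

lemma ext_series (F : ℂ → ℂ) (hF : Differentiable ℂ F) (a : ℕ → ℂ) (ha0 : a 0 = 0) (A : ℝ)
    (hs : ∀ s : ℂ, A < s.re → Summable (fun n : ℕ => ‖a n * (n : ℂ) ^ (-s)‖)) (R : ℝ)
    (h : ∀ s : ℂ, R < s.re → F s = ∑' n : ℕ, a n * (n : ℂ) ^ (-s)) (s : ℂ) (hs1 : A < s.re) :
    F s = ∑' n : ℕ, a n * (n : ℂ) ^ (-s) := by
  have hterm : ∀ (s : ℂ) (n : ℕ), LSeries.term a s n = a n * (n : ℂ) ^ (-s) := by
    intro s n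
    unfold LSeries.term
    split_ifs with h0
    · rw [h0, ha0]; ring
    · rw [Complex.cpow_neg, div_eq_mul_inv]
  have hL : ∀ s : ℂ, LSeries a s = ∑' n : ℕ, a n * (n : ℂ) ^ (-s) := fun s =>
    tsum_congr fun n => hterm s n
  have hab : LSeries.abscissaOfAbsConv a ≤ (A : EReal) := by
    refine LSeries.abscissaOfAbsConv_le_of_forall_lt_LSeriesSummable fun y hy => ?_
    unfold LSeriesSummable
    have := (hs (y : ℂ) (by simpa using hy)).of_norm
    refine this.congr fun n => (hterm _ n).symm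
  have han : AnalyticOnNhd ℂ (LSeries a) {s : ℂ | A < s.re} := by
    refine (LSeries_analyticOnNhd _).mono fun s hs => ?_
    exact lt_of_le_of_lt hab (by
      have : A < s.re := hs
      exact_mod_cast this)
  have hFa : AnalyticOnNhd ℂ F {s : ℂ | A < s.re} := fun z _ => hF.analyticAt z
  have hpre : IsPreconnected {s : ℂ | A < s.re} := (convex_halfSpace_re_gt A).isPreconnected
  set z0 : ℂ := ((max R A + 1 : ℝ) : ℂ) with hz0
  have hz0r : z0.re = max R A + 1 := by simp [hz0]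
  have hz1 : z0 ∈ {s : ℂ | A < s.re} := by
    show A < z0.re
    rw [hz0r]
    linarith [le_max_right R A]
  have hev : F =ᶠ[𝓝 z0] LSeries a := by
    have : ∀ᶠ z in 𝓝 z0, R < z.re := by
      refine (Complex.continuous_re.isOpen_preimage _ isOpen_Ioi).mem_nhds ?_
      show R < z0.re
      rw [hz0r]
      linarith [le_max_left R A]
    filter_upwards [this] with z hz
    rw [h z hz, hL]
  have := hFa.eqOn_of_preconnected_of_eventuallyEq han hpre hz1 hev
  rw [this hs1, hL]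

theorem Wc_ne (h1 : H_BASIC) (h4 : H_GAUSS) {R : Subring ℂ} {ω : ℂ} (hR : QR R ω)
    {m : ℕ} (hm : 1 ≤ m)
    {q : Ideal R} {ψ : Ideal R → ℂ} (hψ : HC (2 * m - 1) q ψ)
    {s : Finset (Ideal R)} {hh : Ideal R} {μ : R} {T : Finset R} (hS : Sys q s hh μ T) :
    Wc ω m q hh μ T ψ ≠ 0 := by
  have hqt := hψ.ne_top hm
  obtain ⟨-, b2, b3, b4, b5, -⟩ := h1 R ω hR
  have hq := b3 q hψ.ne
  have hh1 := b3 hh hS.ne
  have g1 := (h4 R ω hR _ q ψ hψ hqt s hh μ T hS).1
  have n1 : gT ω (2 * m - 1) ψ μ T ≠ 0 := by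
    intro h
    rw [h, norm_zero] at g1
    norm_num at g1
    linarith
  have n3 : ψ hh ≠ 0 := by
    intro h
    rcases (hψ.zero hh).1 h with h | h
    · exact hS.ne h
    · exact h hS.cop
  have n4 : (nm q : ℂ) ≠ 0 := by
    have : nm q ≠ 0 := by linarith
    exact_mod_cast this
  have n5 : (μ : ℂ) ≠ 0 := by
    intro h
    have h5 : nm (q * hh) = 0 := by
      rw [hS.prn, b5, h, Complex.normSq_zero]
    rw [b4] at h5
    have : 0 < nm q * nm hh := by
      have : 0 < nm q := by linarith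
      have : 0 < nm hh := by linarith
      positivity
    linarith
  unfold Wc
  exact div_ne_zero (mul_ne_zero n1 (pow_ne_zero _ n5)) (mul_ne_zero (pow_ne_zero _ n4) n3)

theorem h_afe (h1 : H_BASIC) (h2 : H_FP) (h3 : H_CNT) (h4 : H_GAUSS) (h5 : H_THETA) :
    H_AFE := by
  intro R ω hR m hm q ψ hψ s hh μ T hS
  have hqt := hψ.ne_top hm
  have hW := Wc_ne h1 h4 hR hm hψ hS
  obtain ⟨-, b2, b3, b4, b5, -⟩ := h1 R ω hR
  obtain ⟨c1, c2, C, hC, c3, -⟩ := h3 R ω hR
  obtain ⟨f1, -⟩ := h2 R ω hR _ q ψ hψ hqt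
  have hψ0 : ψ ⊥ = 0 := (hψ.zero ⊥).2 (Or.inl rfl)
  set N : Ideal R → ℕ := fun I => Nat.card (R ⧸ I) with hN
  have hNn : ∀ I : Ideal R, nm I = (N I : ℝ) := fun I => rfl
  have hNc : ∀ I : Ideal R, (nm I : ℂ) = (N I : ℂ) := fun I => by
    rw [hNn, Complex.ofReal_natCast]
  have hω := hR.im
  have hpi := Real.pi_pos
  have hq1 := b3 q hψ.ne
  have hm1 : (1 : ℝ) ≤ m := by exact_mod_cast hm
  have hsq : 0 < Real.sqrt (nm q) := Real.sqrt_pos.2 (by linarith)
  have hS1 : ∀ σ : ℝ, 1 < σ → Summable (fun I : Ideal R => (N I : ℝ) ^ (-σ)) := fun σ hσ => c2 σ hσ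
  have hfz : ∀ I, N I = 0 → ψ I = 0 := by
    intro I h0
    by_contra h
    have h6 : I ≠ ⊥ := fun h7 => h ((hψ.zero I).2 (Or.inl h7))
    have h7 := b3 I h6
    rw [hNn, h0] at h7
    norm_num at h7
  set ρ : ℝ := (m : ℝ) - 1 / 2 with hρ
  have hf1 : ∀ I, 1 ≤ N I → ‖ψ I‖ ≤ (N I : ℝ) ^ ρ := by
    intro I hI
    have hNI : (0 : ℝ) < N I := by exact_mod_cast hI
    by_cases h : ψ I = 0
    · rw [h, norm_zero]
      positivity
    · have h6 : I ≠ ⊥ ∧ IsCoprime I q := by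
        constructor
        · intro h7
          exact h ((hψ.zero I).2 (Or.inl h7))
        · by_contra h7
          exact h ((hψ.zero I).2 (Or.inr h7))
      have h7 := f1 I h6.1 h6.2
      rw [hNn] at h7
      have h8 : ((N I : ℝ) ^ ρ) ^ 2 = (N I : ℝ) ^ (2 * m - 1) := by
        rw [← Real.rpow_natCast ((N I : ℝ) ^ ρ) 2, ← Real.rpow_mul hNI.le,
          ← Real.rpow_natCast (N I : ℝ) (2 * m - 1)]
        congr 1
        rw [Nat.cast_sub (by omega)]
        push_cast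
        rw [hρ]
        ring
      have h9 : ‖ψ I‖ ^ 2 ≤ ((N I : ℝ) ^ ρ) ^ 2 := by rw [h7, h8]
      exact le_of_sq_le_sq h9 (by positivity)
  have hcn : ∀ I, 1 ≤ N I → ‖(starRingEnd ℂ) (ψ I)‖ ≤ (N I : ℝ) ^ ρ := by
    intro I hI
    rw [RCLike.norm_conj]
    exact hf1 I hI
  have hfzc : ∀ I, N I = 0 → (starRingEnd ℂ) (ψ I) = 0 := by
    intro I hI
    rw [hfz I hI, map_zero]
  have hfib : ∀ n : ℕ, (N ⁻¹' {n}).Finite := by
    intro n
    refine (c1 n).subset ?_
    intro I hI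
    have : N I = n := hI
    show nm I ≤ n
    rw [hNn, this]
  set b : ℕ → ℂ := fun n => ∑' I : N ⁻¹' {n}, ψ I with hb
  have hbf : ∀ n, b n = ∑ I ∈ (hfib n).toFinset, ψ I := fun n => fib_fin (hfib n) ψ
  have hbc : ∀ n, ∑' I : N ⁻¹' {n}, (starRingEnd ℂ) (ψ I) = (starRingEnd ℂ) (b n) := by
    intro n
    rw [hbf, fib_fin (hfib n) (fun I => (starRingEnd ℂ) (ψ I)), map_sum]
  have hb0 : b 0 = 0 := by
    rw [hbf]
    refine Finset.sum_eq_zero fun I hI => ?_
    exact hfz I ((hfib 0).mem_toFinset.1 hI)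
  have hρ0 : 0 ≤ ρ + 1 := by rw [hρ]; linarith
  have hbn : ∀ n : ℕ, 1 ≤ n → ‖b n‖ ≤ C * (n : ℝ) ^ (ρ + 1) := by
    intro n hn
    have hn0 : (0 : ℝ) < n := by exact_mod_cast hn
    have hn1 : (1 : ℝ) ≤ n := by exact_mod_cast hn
    rw [hbf]
    refine (norm_sum_le _ _).trans ((Finset.sum_le_sum (g := fun _ => (n : ℝ) ^ ρ)
      fun I hI => ?_).trans ?_)
    · have h6 : N I = n := (hfib n).mem_toFinset.1 hI
      have h7 := hf1 I (by rw [h6]; exact hn)
      rwa [h6] at h7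
    · rw [Finset.sum_const, nsmul_eq_mul, ← Set.ncard_eq_toFinset_card (N ⁻¹' {n}) (hfib n),
        Real.rpow_add hn0, Real.rpow_one, mul_comm ((n : ℝ) ^ ρ) (n : ℝ), ← mul_assoc]
      refine mul_le_mul_of_nonneg_right ?_ (by positivity)
      refine le_trans ?_ (c3 n hn1)
      have := Set.ncard_le_ncard (s := N ⁻¹' {n}) (t := {I : Ideal R | nm I ≤ (n : ℝ)}) (by
        intro I hI
        have h8 : N I = n := hI
        show nm I ≤ n
        rw [hNn, h8]) (c1 n)
      exact_mod_cast this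
  -- the theta function
  set Rp : ℝ := 2 * ω.im * Real.sqrt (nm q) with hRp
  have hRp0 : 0 < Rp := by positivity
  have hcoef : ∀ x : ℝ, Real.pi * x / (ω.im * Real.sqrt (nm q)) = 2 * Real.pi * x / Rp := by
    intro x
    rw [hRp]
    field_simp
  have hfe : ∀ t : ℝ, 0 < t → ∑' n : ℕ, b n * (Real.exp (-(2 * Real.pi * n / Rp) / t) : ℂ) =
      Wc ω m q hh μ T ψ * (t : ℂ) ^ (2 * m) * ∑' n : ℕ,
        (starRingEnd ℂ) (b n) * (Real.exp (-(2 * Real.pi * n / Rp) * t) : ℂ) := by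
    intro t ht
    have hth := h5 R ω hR m hm q ψ hψ s hh μ T hS t ht
    have s1 := summ_r hS1 ρ ψ hfz hf1 (fun n : ℕ => (Real.exp (-(2 * Real.pi * n / Rp) / t) : ℂ))
      (A := 1) (c := 2 * Real.pi / Rp / t) (by positivity) (by
        intro n _
        rw [Complex.norm_real, Real.norm_eq_abs, Real.abs_exp, one_mul]
        refine le_of_eq ?_
        congr 1
        ring)
    have s2 := summ_r hS1 ρ (fun I => (starRingEnd ℂ) (ψ I)) hfzc hcn
      (fun n : ℕ => (Real.exp (-(2 * Real.pi * n / Rp) * t) : ℂ))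
      (A := 1) (c := 2 * Real.pi / Rp * t) (by positivity) (by
        intro n _
        rw [Complex.norm_real, Real.norm_eq_abs, Real.abs_exp, one_mul]
        refine le_of_eq ?_
        congr 1
        ring)
    have e1 := fib (N := N) (f := ψ)
      (fun n : ℕ => (Real.exp (-(2 * Real.pi * n / Rp) / t) : ℂ)) s1
    have e2 := fib (N := N) (f := fun I => (starRingEnd ℂ) (ψ I))
      (fun n : ℕ => (Real.exp (-(2 * Real.pi * n / Rp) * t) : ℂ)) s2
    simp only [hbc] at e2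
    rw [← e2]
    refine (e1.symm.trans ?_).trans (hth.trans ?_)
    · refine tsum_congr fun I => ?_
      rw [hcoef, hNn I]
    · congr 1
      refine tsum_congr fun I => ?_
      rw [hcoef, hNn I]
  obtain ⟨F, hFd, hFs, hFc⟩ := mellinK m hm (b := b) (m := ρ + 1) (C := C) (R := Rp)
    hRp0 hb0 hρ0 hbn hW hfe
  -- extension of the series
  have hsub : ∀ s : ℂ, (m : ℝ) + 1 / 2 < s.re → 1 < s.re - ρ := by
    intro s hs
    rw [hρ]
    linarith
  have hFe : ∀ s : ℂ, (m : ℝ) + 1 / 2 < s.re → F s = ∑' n : ℕ, b n * (n : ℂ) ^ (-s) := by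
    refine fun s hs => ext_series F hFd b hb0 ((m : ℝ) + 1 / 2) ?_ (ρ + 1 + 2)
      (fun s hs => ?_) s hs
    · intro s hs
      have k1 := ((hS1 (s.re - ρ) (hsub s hs)).hasSum.tsum_fiberwise N).summable
      refine k1.of_nonneg_of_le (fun n => norm_nonneg _) (fun n => ?_)
      rcases Nat.eq_zero_or_pos n with rfl | hn
      · rw [hb0, zero_mul, norm_zero]
        exact tsum_nonneg fun I => by positivity
      · have hn0 : (0 : ℝ) < n := by exact_mod_cast hn
        rw [fib_fin (hfib n) (fun I : Ideal R => (N I : ℝ) ^ (-(s.re - ρ))), hbf, norm_mul]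
        have h5 : ‖(n : ℂ) ^ (-s)‖ = (n : ℝ) ^ (-s.re) := by
          rw [Complex.norm_natCast_cpow_of_pos hn]
          simp
        rw [h5]
        refine (mul_le_mul_of_nonneg_right (norm_sum_le _ _) (by positivity)).trans ?_
        rw [Finset.sum_mul]
        refine Finset.sum_le_sum fun I hI => ?_
        have h6 : N I = n := (hfib n).mem_toFinset.1 hI
        have h7 := hf1 I (by rw [h6]; exact hn)
        rw [h6] at h7 ⊢
        calc ‖ψ I‖ * (n : ℝ) ^ (-s.re)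
            ≤ (n : ℝ) ^ ρ * (n : ℝ) ^ (-s.re) :=
              mul_le_mul_of_nonneg_right h7 (by positivity)
          _ = (n : ℝ) ^ (-(s.re - ρ)) := by
              rw [← Real.rpow_add hn0]
              congr 1
              ring
    · exact hFs s hs
  -- norm of the terms
  have hnrm : ∀ (z : ℂ) (I : Ideal R), (m : ℝ) + 1 / 2 < z.re →
      ‖ψ I * ((N I : ℕ) : ℂ) ^ (-z)‖ ≤ (N I : ℝ) ^ (-(z.re - ρ)) := by
    intro z I hz
    rcases Nat.eq_zero_or_pos (N I) with h0 | h0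
    · rw [norm_mul, hfz I h0, norm_zero, zero_mul]
      positivity
    · have hn0 : (0 : ℝ) < N I := by exact_mod_cast h0
      rw [norm_mul, Complex.norm_natCast_cpow_of_pos h0]
      calc ‖ψ I‖ * (N I : ℝ) ^ (-z).re
          ≤ (N I : ℝ) ^ ρ * (N I : ℝ) ^ (-z).re :=
            mul_le_mul_of_nonneg_right (hf1 I h0) (by positivity)
        _ = (N I : ℝ) ^ (-(z.re - ρ)) := by
            rw [← Real.rpow_add hn0, Complex.neg_re]
            congr 1
            ring
  refine ⟨F, hFd, ?_, ?_⟩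
  · intro s hs
    have hsm : Summable (fun I : Ideal R => ψ I * ((N I : ℕ) : ℂ) ^ (-s)) :=
      Summable.of_norm_bounded (hS1 (s.re - ρ) (hsub s hs)) (fun I => hnrm s I hs)
    have e4 := fib (N := N) (f := ψ) (fun n : ℕ => (n : ℂ) ^ (-s)) hsm
    have e6 : F s = ∑' I : Ideal R, ψ I * ((N I : ℕ) : ℂ) ^ (-s) := by
      rw [hFe _ hs, e4]
    simp only [hNc]
    rw [e6]
    exact hsm.hasSum
  · intro X Y hX hY hXY
    have hXY' : X * Y = Rp ^ 2 / (4 * Real.pi ^ 2) := by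
      have hs2 : Real.sqrt (nm q) ^ 2 = nm q := Real.sq_sqrt (by linarith)
      rw [hXY, hRp, mul_pow, mul_pow, hs2]
      field_simp
      ring
    rw [hFc X Y hX hY hXY']
    obtain ⟨D, hVW⟩ := h_vk m hm
    have hD := hVW.pos
    have hVb := hVW.dec
    have hV : ∀ (g : Ideal R → ℂ), (∀ I, N I = 0 → g I = 0) →
        (∀ I, 1 ≤ N I → ‖g I‖ ≤ (N I : ℝ) ^ ρ) → ∀ Z : ℝ, 0 < Z →
        ∑' n : ℕ, (∑' I : N ⁻¹' {n}, g I) / (n : ℂ) ^ m * (Vk m (n / Z) : ℂ) =
        ∑' I : Ideal R, g I / (nm I : ℂ) ^ m * (Vk m (nm I / Z) : ℂ) := by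
      intro g hg0 hg Z hZ
      have s3 := summ_r hS1 ρ g hg0 hg
        (fun n : ℕ => 1 / (n : ℂ) ^ m * (Vk m (n / Z) : ℂ))
        (A := D) (c := 1 / (2 * Z)) (by positivity) (by
          intro n hn
          have hn1 : (1 : ℝ) ≤ n := by exact_mod_cast hn
          rw [norm_mul, norm_div, norm_one, Complex.norm_real, Real.norm_eq_abs, norm_pow,
            Complex.norm_natCast]
          have q1 := hVb (n / Z) (by positivity)
          have q2 : 1 / (n : ℝ) ^ m ≤ 1 := by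
            rw [div_le_one (by positivity)]
            exact one_le_pow₀ hn1
          calc 1 / (n : ℝ) ^ m * |Vk m (n / Z)|
              ≤ 1 * (D * Real.exp (-(n / Z / 2))) :=
                mul_le_mul q2 q1 (abs_nonneg _) zero_le_one
            _ = D * Real.exp (-(1 / (2 * Z) * n)) := by
                rw [one_mul]
                congr 2
                field_simp)
      have e6 := fib (N := N) (f := g)
        (fun n : ℕ => 1 / (n : ℂ) ^ m * (Vk m (n / Z) : ℂ)) s3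
      refine Eq.trans ?_ (e6.symm.trans ?_)
      · refine tsum_congr fun n => ?_
        ring
      · refine tsum_congr fun I => ?_
        rw [hNn I, Complex.ofReal_natCast]
        ring
    have v1 := hV ψ hfz hf1 X hX
    have v2 := hV (fun I => (starRingEnd ℂ) (ψ I)) hfzc hcn Y hY
    simp only [hbc] at v2
    rw [show (∑' n : ℕ, b n / (n : ℂ) ^ m * (Vk m (n / X) : ℂ)) = _ from v1, v2]

end Pool.Agent.TH936.HK
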