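import Pool.Agent.TH936.HK.Wt
import Pool.Agent.W108.TW.Mellin

/-!
# Project HK, part AFE, first half: continuation and value at the centre, weight `2 κ`
-/

set_option autoImplicit false

open Complex Filter Topology Set MeasureTheory

namespace Pool.Agent.TH936.HK

open Pool.Agent.W192.CY (VW Vk K_VK)
open Pool.Agent.W192.HK
open Pool.Agent.W108.TW

lemma cp_cpow (κ : ℕ) (hκ : 1 ≤ κ) (t : ℝ) : (t : ℂ) ^ ((κ : ℂ) - 1) = (t : ℂ) ^ (κ - 1) := by
  obtain ⟨j, rfl⟩ : ∃ j, κ = j + 1 := ⟨κ - 1, by omega⟩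
  simp only [Nat.add_sub_cancel]
  push_cast
  rw [add_sub_cancel_right, Complex.cpow_natCast]

lemma int_Th (κ : ℕ) (hκ : 1 ≤ κ) {b : ℕ → ℂ} {m C : ℝ} (hb0 : b 0 = 0)
    (hb : ∀ n : ℕ, 1 ≤ n → ‖b n‖ ≤ C * (n : ℝ) ^ m) {c : ℝ} (hc : 0 < c) {t0 : ℝ} (ht : 0 < t0) :
    ∫ t in Ioi t0, (t : ℂ) ^ (κ - 1) * Th b c t =
      ∑' n : ℕ, b n * ((((c * n) ^ κ)⁻¹ * (((κ - 1).factorial : ℝ) * Vk κ (c * n * t0)) : ℝ) :
        ℂ) := by
  unfold Th
  obtain ⟨D, hVW⟩ := h_vk κ hκ
  have hD := hVW.pos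
  have hVb := hVW.dec
  set Fa : ℝ := ((κ - 1).factorial : ℝ) with hFa
  have hFa0 : 0 < Fa := by positivity
  have hint : ∀ n : ℕ, Integrable (fun t : ℝ => (t : ℂ) ^ (κ - 1) *
      (b n * (Real.exp (-(c * n) * t) : ℂ))) (volume.restrict (Ioi t0)) := by
    intro n
    rcases Nat.eq_zero_or_pos n with rfl | hn
    · rw [hb0]
      simp only [zero_mul, mul_zero]
      exact integrable_zero _ _ _
    · have hn' : (0 : ℝ) < n := by exact_mod_cast hn
      have h0 : 0 < c * n := by positivity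
      have h1 := (vk_int κ hκ (c * n) t0 h0 ht.le).1
      refine ((Integrable.ofReal (𝕜 := ℂ) h1).const_mul (b n)).congr ?_
      refine Eventually.of_forall fun t => ?_
      simp only [Complex.coe_algebraMap, RCLike.ofReal_mul]
      push_cast
      ring
  have hnorm : ∀ n : ℕ, ∫ t in Ioi t0, ‖(t : ℂ) ^ (κ - 1) *
      (b n * (Real.exp (-(c * n) * t) : ℂ))‖ ≤
      |C| * ((c ^ κ)⁻¹ * (Fa * D)) *
        ((n : ℝ) ^ m * Real.exp (-((c * t0 / 2) * n))) := by
    intro n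
    rcases Nat.eq_zero_or_pos n with rfl | hn
    · rw [hb0]
      simp only [zero_mul, mul_zero, norm_zero, integral_zero]
      positivity
    · have hn' : (1 : ℝ) ≤ n := by exact_mod_cast hn
      have h0 : 0 < c * n := by positivity
      have e1 : ∀ t ∈ Ioi t0, ‖(t : ℂ) ^ (κ - 1) * (b n * (Real.exp (-(c * n) * t) : ℂ))‖ =
          ‖b n‖ * (t ^ (κ - 1) * Real.exp (-(c * n) * t)) := by
        intro t (ht' : t0 < t)
        have : 0 < t := by linarith
        rw [norm_mul, norm_mul, norm_pow, Complex.norm_real, Complex.norm_real, Real.norm_eq_abs,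
          Real.norm_eq_abs, Real.abs_exp, abs_of_pos this]
        ring
      rw [setIntegral_congr_fun measurableSet_Ioi e1, integral_const_mul,
        (vk_int κ hκ (c * n) t0 h0 ht.le).2]
      have h1 : ‖b n‖ ≤ |C| * (n : ℝ) ^ m :=
        (hb n hn).trans (mul_le_mul_of_nonneg_right (le_abs_self C) (by positivity))
      have h2 : ((c * n) ^ κ)⁻¹ * (Fa * Vk κ (c * n * t0)) ≤
          (c ^ κ)⁻¹ * (Fa * D) * Real.exp (-((c * t0 / 2) * n)) := by
        have h3 : Vk κ (c * n * t0) ≤ D * Real.exp (-((c * t0 / 2) * n)) := by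
          refine (le_abs_self _).trans ((hVb (c * n * t0) (by positivity)).trans
            (le_of_eq ?_))
          congr 3
          ring
        have h4 : ((c * n) ^ κ)⁻¹ ≤ (c ^ κ)⁻¹ := by
          refine inv_anti₀ (by positivity) ?_
          refine pow_le_pow_left₀ hc.le ?_ _
          nlinarith
        have h5 := vk_nonneg κ (x := c * n * t0) (by positivity)
        calc _ ≤ (c ^ κ)⁻¹ * (Fa * Vk κ (c * n * t0)) :=
              mul_le_mul_of_nonneg_right h4 (by positivity)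
          _ ≤ (c ^ κ)⁻¹ * (Fa * (D * Real.exp (-((c * t0 / 2) * n)))) :=
              mul_le_mul_of_nonneg_left (mul_le_mul_of_nonneg_left h3 hFa0.le) (by positivity)
          _ = _ := by ring
      calc ‖b n‖ * (((c * n) ^ κ)⁻¹ * (Fa * Vk κ (c * n * t0))) ≤
            ‖b n‖ * ((c ^ κ)⁻¹ * (Fa * D) *
              Real.exp (-((c * t0 / 2) * n))) := mul_le_mul_of_nonneg_left h2 (norm_nonneg _)
        _ ≤ (|C| * (n : ℝ) ^ m) * ((c ^ κ)⁻¹ * (Fa * D) *
              Real.exp (-((c * t0 / 2) * n))) := mul_le_mul_of_nonneg_right h1 (by positivity)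
        _ = _ := by ring
  have hsum : Summable fun n : ℕ => ∫ t in Ioi t0, ‖(t : ℂ) ^ (κ - 1) *
      (b n * (Real.exp (-(c * n) * t) : ℂ))‖ := by
    refine Summable.of_nonneg_of_le (fun n => integral_nonneg fun t => norm_nonneg _) hnorm ?_
    exact (summable_maj (c * t0 / 2) (by positivity) m).mul_left _
  have e0 : ∀ t : ℝ, (t : ℂ) ^ (κ - 1) * ∑' n : ℕ, b n * (Real.exp (-(c * n) * t) : ℂ) =
      ∑' n : ℕ, (t : ℂ) ^ (κ - 1) * (b n * (Real.exp (-(c * n) * t) : ℂ)) := by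
    intro t
    rw [tsum_mul_left]
  simp only [e0]
  rw [← integral_tsum_of_summable_integral_norm hint hsum]
  refine tsum_congr fun n => ?_
  rcases Nat.eq_zero_or_pos n with rfl | hn
  · rw [hb0]; simp
  · have hn' : (0 : ℝ) < n := by exact_mod_cast hn
    have h0 : 0 < c * n := by positivity
    rw [← (vk_int κ hκ (c * n) t0 h0 ht.le).2]
    have e2 : ∀ t : ℝ, (t : ℂ) ^ (κ - 1) * (b n * (Real.exp (-(c * n) * t) : ℂ)) =
        b n * ((t ^ (κ - 1) * Real.exp (-(c * n) * t) : ℝ) : ℂ) := by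
      intro t
      push_cast
      ring
    simp only [e2]
    rw [integral_const_mul, integral_complex_ofReal]

/-- the lower part of the integral -/
lemma int_low (κ : ℕ) (hκ : 1 ≤ κ) (g g' : ℝ → ℂ) (w : ℂ) (t0 : ℝ) (ht : 0 < t0)
    (h : ∀ t : ℝ, 0 < t → g (t⁻¹) = w * (t : ℂ) ^ (2 * κ) * g' t) :
    ∫ t in Ioc 0 t0, (t : ℂ) ^ (κ - 1) * g t =
      w * ∫ t in Ioi t0⁻¹, (t : ℂ) ^ (κ - 1) * g' t := by
  have h1 : ∫ t in Ioc 0 t0, (t : ℂ) ^ (κ - 1) * g t = mellin ((Iic t0).indicator g) κ := by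
    rw [mellin]
    have e0 : ∀ t ∈ Ioi (0 : ℝ), (t : ℂ) ^ ((κ : ℂ) - 1) • (Iic t0).indicator g t =
        (Iic t0).indicator (fun t : ℝ => (t : ℂ) ^ (κ - 1) * g t) t := by
      intro t (ht0 : 0 < t)
      rw [cp_cpow κ hκ]
      by_cases ht' : t ∈ Iic t0
      · rw [indicator_of_mem ht', indicator_of_mem ht', smul_eq_mul]
      · rw [indicator_of_notMem ht', indicator_of_notMem ht', smul_zero]
    rw [setIntegral_congr_fun measurableSet_Ioi e0, setIntegral_indicator measurableSet_Iic]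
    rfl
  have h2 : mellin ((Iic t0).indicator g) κ =
      mellin (fun t => (Iic t0).indicator g t⁻¹) (-(κ : ℂ)) := by
    rw [mellin_comp_inv, neg_neg]
  rw [h1, h2, mellin]
  have h3 : ∀ t ∈ Ioi (0 : ℝ), (t : ℂ) ^ (-(κ : ℂ) - 1) • (Iic t0).indicator g t⁻¹ =
      (Ici t0⁻¹).indicator (fun t : ℝ => w * ((t : ℂ) ^ (κ - 1) * g' t)) t := by
    intro t (ht' : 0 < t)
    by_cases hh : t⁻¹ ≤ t0
    · have hh' : t0⁻¹ ≤ t := inv_le_of_inv_le₀ ht' hh
      rw [indicator_of_mem (show t⁻¹ ∈ Iic t0 from hh), indicator_of_mem (show t ∈ Ici t0⁻¹ from hh')]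
      rw [h t ht', smul_eq_mul]
      have htc : (t : ℂ) ≠ 0 := by exact_mod_cast ht'.ne'
      have e2 : (t : ℂ) ^ (-(κ : ℂ) - 1) * (t : ℂ) ^ (2 * κ) = (t : ℂ) ^ (κ - 1) := by
        rw [← cp_cpow κ hκ t, ← Complex.cpow_natCast (t : ℂ) (2 * κ),
          ← Complex.cpow_add _ _ htc]
        congr 1
        push_cast
        ring
      rw [← e2]
      ring
    · have hh' : ¬ t0⁻¹ ≤ t := fun h' => hh (inv_le_of_inv_le₀ ht h')
      rw [indicator_of_notMem (show t⁻¹ ∉ Iic t0 from hh),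
        indicator_of_notMem (show t ∉ Ici t0⁻¹ from hh'), smul_zero]
  rw [setIntegral_congr_fun measurableSet_Ioi h3, setIntegral_indicator measurableSet_Ici]
  have h4 : Ioi (0 : ℝ) ∩ Ici t0⁻¹ = Ici t0⁻¹ := by
    apply inter_eq_right.2
    intro x hx
    have : 0 < t0⁻¹ := by positivity
    exact lt_of_lt_of_le this hx
  rw [h4, integral_Ici_eq_integral_Ioi, integral_const_mul]

theorem mellinK (κ : ℕ) (hκ : 1 ≤ κ) {b : ℕ → ℂ} {m C R : ℝ} (hR : 0 < R) (hb0 : b 0 = 0)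
    (hm : 0 ≤ m)
    (hb : ∀ n : ℕ, 1 ≤ n → ‖b n‖ ≤ C * (n : ℝ) ^ m) {w : ℂ} (hw : w ≠ 0)
    (hfe : ∀ t : ℝ, 0 < t → ∑' n : ℕ, b n * (Real.exp (-(2 * Real.pi * n / R) / t) : ℂ) =
      w * (t : ℂ) ^ (2 * κ) * ∑' n : ℕ, (starRingEnd ℂ) (b n) *
        (Real.exp (-(2 * Real.pi * n / R) * t) : ℂ)) :
    ∃ F : ℂ → ℂ, Differentiable ℂ F ∧
      (∀ s : ℂ, m + 2 < s.re → F s = ∑' n : ℕ, b n * (n : ℂ) ^ (-s)) ∧
      ∀ X Y : ℝ, 0 < X → 0 < Y → X * Y = R ^ 2 / (4 * Real.pi ^ 2) →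
        F κ = ∑' n : ℕ, b n / (n : ℂ) ^ κ * (Vk κ (n / X) : ℂ) +
          w * ∑' n : ℕ, (starRingEnd ℂ) (b n) / (n : ℂ) ^ κ * (Vk κ (n / Y) : ℂ) := by
  have hpi := Real.pi_pos
  set c : ℝ := 2 * Real.pi / R with hc'
  have hc : 0 < c := by positivity
  have hb' : ∀ n : ℕ, 1 ≤ n → ‖(starRingEnd ℂ) (b n)‖ ≤ C * (n : ℝ) ^ m := by
    intro n hn; rw [RCLike.norm_conj]; exact hb n hn
  have hb0' : (starRingEnd ℂ) (b 0) = 0 := by rw [hb0, map_zero]
  have hrel : ∀ x : ℝ, 0 < x → Th b c (1 / x) =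
      w * (x : ℂ) ^ (2 * κ) * Th (fun n => (starRingEnd ℂ) (b n)) c x := by
    intro x hx
    have h := hfe x hx
    rw [Th, Th]
    have e1 : ∀ n : ℕ, -(c * n) * (1 / x) = -(2 * Real.pi * n / R) / x := by
      intro n; rw [hc']; ring
    have e2 : ∀ n : ℕ, -(c * n) * x = -(2 * Real.pi * n / R) * x := by
      intro n; rw [hc']; ring
    simp only [e1, e2]
    exact h
  let P : WeakFEPair ℂ :=
    { f := Th b c
      g := Th (fun n => (starRingEnd ℂ) (b n)) c
      k := ((2 * κ : ℕ) : ℝ)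
      ε := w
      f₀ := 0
      g₀ := 0
      hf_int := (continuousOn_Th hb0 hb hc).locallyIntegrableOn measurableSet_Ioi
      hg_int := (continuousOn_Th hb0' hb' hc).locallyIntegrableOn measurableSet_Ioi
      hk := by
        have : 0 < 2 * κ := by omega
        exact_mod_cast this
      hε := hw
      h_feq := by
        intro x (hx : 0 < x)
        rw [hrel x hx, smul_eq_mul]
        congr 2
        rw [Real.rpow_natCast]
        push_cast
        rfl
      hf_top := Th_isBigO hb0 hb hc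
      hg_top := Th_isBigO hb0' hb' hc }
  have hP : IsStrongFEPair P := ⟨rfl, rfl⟩
  have hΛf : P.Λ = mellin (Th b c) := hP.Λ_eq
  have hcC : (c : ℂ) ≠ 0 := by exact_mod_cast hc.ne'
  let F : ℂ → ℂ := fun s => P.Λ s * (c : ℂ) ^ s * (Complex.Gamma s)⁻¹
  refine ⟨F, ?_, ?_, ?_⟩
  · -- differentiable
    have h1 : Differentiable ℂ (fun s : ℂ => P.Λ s) := hP.differentiable_Λ
    have h2 : Differentiable ℂ (fun s : ℂ => (c : ℂ) ^ s) := by
      intro s
      exact (DifferentiableAt.const_cpow (by fun_prop) (Or.inl hcC))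
    have h3 : Differentiable ℂ (fun s : ℂ => (Complex.Gamma s)⁻¹) :=
      Complex.differentiable_one_div_Gamma
    exact (h1.mul h2).mul h3
  · -- Dirichlet series
    intro S hSm
    have hSpos : 0 < S.re := by linarith
    have hG : Complex.Gamma S ≠ 0 := Complex.Gamma_ne_zero_of_re_pos hSpos
    have h1 := hasSum_mellin (a := b) (p := fun n : ℕ => c * n) (F := Th b c) (s := S)
      (by
        intro n
        rcases Nat.eq_zero_or_pos n with rfl | hn
        · exact Or.inl hb0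
        · right
          have : (0 : ℝ) < n := by exact_mod_cast hn
          positivity) hSpos
      (by
        intro t (ht : 0 < t)
        exact (summable_term hb0 hb hc ht).hasSum)
      (by
        have h2 : Summable (fun n : ℕ => |C| / c ^ S.re * (n : ℝ) ^ (m - S.re)) :=
          (Real.summable_nat_rpow.mpr (by linarith)).mul_left _
        refine Summable.of_nonneg_of_le (fun n => by positivity) (fun n => ?_) h2
        rcases Nat.eq_zero_or_pos n with rfl | hn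
        · rw [hb0, norm_zero, zero_div]; positivity
        · have hn' : (0 : ℝ) < n := by exact_mod_cast hn
          have h3 : ‖b n‖ ≤ |C| * (n : ℝ) ^ m :=
            (hb n hn).trans (mul_le_mul_of_nonneg_right (le_abs_self C) (by positivity))
          rw [Real.mul_rpow hc.le hn'.le, Real.rpow_sub hn', div_mul_div_comm]
          exact div_le_div_of_nonneg_right h3 (by positivity))
    have h2 := h1.tsum_eq
    have h3 : F S = (∑' n : ℕ, Complex.Gamma S * b n / ((c * n : ℝ) : ℂ) ^ S) * (c : ℂ) ^ S *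
        (Complex.Gamma S)⁻¹ := by
      simp only [F]
      rw [hΛf, ← h2]
    have hcs : (c : ℂ) ^ S ≠ 0 := by
      rw [Complex.cpow_def_of_ne_zero hcC]; exact Complex.exp_ne_zero _
    rw [h3, ← tsum_mul_right, ← tsum_mul_right]
    refine tsum_congr (fun n => ?_)
    rcases Nat.eq_zero_or_pos n with rfl | hn
    · rw [hb0]; simp
    · have hn' : (n : ℂ) ≠ 0 := by exact_mod_cast hn.ne'
      have hnS : (n : ℂ) ^ S ≠ 0 := by
        rw [Complex.cpow_def_of_ne_zero hn']; exact Complex.exp_ne_zero _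
      rw [Complex.ofReal_mul, Complex.mul_cpow_ofReal_nonneg hc.le (Nat.cast_nonneg n),
        Complex.cpow_neg]
      simp only [Complex.ofReal_natCast]
      field_simp
  · -- the central value
    intro X Y hX hY hXY
    have hc2 : c ^ 2 * (X * Y) = 1 := by
      rw [hXY, hc']
      field_simp
      ring
    set t0 : ℝ := 1 / (c * X) with ht0
    have ht0p : 0 < t0 := by positivity
    have hFa : (((κ - 1).factorial : ℕ) : ℂ) ≠ 0 := by
      exact_mod_cast (Nat.factorial_pos (κ - 1)).ne'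
    have hGam : Complex.Gamma (κ : ℂ) = (((κ - 1).factorial : ℕ) : ℂ) := by
      obtain ⟨j, rfl⟩ : ∃ j, κ = j + 1 := ⟨κ - 1, by omega⟩
      simp only [Nat.add_sub_cancel]
      push_cast
      exact Complex.Gamma_nat_eq_factorial j
    have e1 : F κ = (c : ℂ) ^ κ / (((κ - 1).factorial : ℕ) : ℂ) *
        ∫ t in Ioi (0 : ℝ), (t : ℂ) ^ (κ - 1) * Th b c t := by
      simp only [F]
      rw [hGam, hΛf, Complex.cpow_natCast, mellin]
      have e0 : ∀ t ∈ Ioi (0 : ℝ), (t : ℂ) ^ ((κ : ℂ) - 1) • Th b c t =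
          (t : ℂ) ^ (κ - 1) * Th b c t := by
        intro t ht
        rw [cp_cpow κ hκ, smul_eq_mul]
      rw [setIntegral_congr_fun measurableSet_Ioi e0]
      field_simp
    have hInt : IntegrableOn (fun t : ℝ => (t : ℂ) ^ (κ - 1) * Th b c t) (Ioi 0) := by
      have h1 := (hP.hasMellin (κ : ℂ)).1
      have h2 : IntegrableOn (fun t : ℝ => (t : ℂ) ^ ((κ : ℂ) - 1) • Th b c t) (Ioi 0) := h1
      refine IntegrableOn.congr_fun h2 (fun t ht => ?_) measurableSet_Ioi
      show (t : ℂ) ^ ((κ : ℂ) - 1) • Th b c t = (t : ℂ) ^ (κ - 1) * Th b c t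
      rw [cp_cpow κ hκ, smul_eq_mul]
    have e2 : ∫ t in Ioi (0 : ℝ), (t : ℂ) ^ (κ - 1) * Th b c t =
        (∫ t in Ioc (0 : ℝ) t0, (t : ℂ) ^ (κ - 1) * Th b c t) +
          ∫ t in Ioi t0, (t : ℂ) ^ (κ - 1) * Th b c t := by
      rw [← Ioc_union_Ioi_eq_Ioi ht0p.le]
      refine setIntegral_union ?_ measurableSet_Ioi (hInt.mono_set Ioc_subset_Ioi_self)
        (hInt.mono_set (Ioi_subset_Ioi ht0p.le))
      rw [Set.disjoint_left]
      intro x hx hx'
      exact absurd hx.2 (not_le.2 hx')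
    have e3 : ∫ t in Ioc (0 : ℝ) t0, (t : ℂ) ^ (κ - 1) * Th b c t =
        w * ∫ t in Ioi t0⁻¹, (t : ℂ) ^ (κ - 1) * Th (fun n => (starRingEnd ℂ) (b n)) c t := by
      refine int_low κ hκ _ _ w t0 ht0p fun t ht => ?_
      rw [← one_div]
      exact hrel t ht
    have hcX : t0⁻¹ = c * X := by rw [ht0]; field_simp
    have hterm : ∀ (z : ℂ) (n : ℕ) (T Z : ℝ), (n = 0 → z = 0) → c * n * T = n / Z →
        (c : ℂ) ^ κ / (((κ - 1).factorial : ℕ) : ℂ) *
          (z * ((((c * n) ^ κ)⁻¹ * (((κ - 1).factorial : ℝ) * Vk κ (c * n * T)) : ℝ) : ℂ)) =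
        z / (n : ℂ) ^ κ * (Vk κ (n / Z) : ℂ) := by
      intro z n T Z hz hT
      rcases Nat.eq_zero_or_pos n with rfl | hn
      · rw [hz rfl]; simp
      · have hn' : (n : ℂ) ≠ 0 := by exact_mod_cast hn.ne'
        rw [hT]
        push_cast
        rw [mul_pow]
        field_simp
    rw [e1, e2, e3, int_Th κ hκ hb0 hb hc ht0p, int_Th κ hκ hb0' hb' hc (inv_pos.2 ht0p), mul_add,
      add_comm, mul_left_comm, ← tsum_mul_left, ← tsum_mul_left]
    congr 1
    · refine tsum_congr fun n => hterm (b n) n t0 X (fun h => by rw [h, hb0]) ?_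
      rw [ht0]
      field_simp
    · congr 1
      refine tsum_congr fun n => hterm _ n t0⁻¹ Y (fun h => by rw [h, hb0']) ?_
      rw [hcX]
      have h2 : c * (c * X) = 1 / Y := by
        rw [eq_div_iff hY.ne']
        linarith
      calc c * n * (c * X) = n * (c * (c * X)) := by ring
        _ = _ := by rw [h2]; ring

end Pool.Agent.TH936.HK
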